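import Pool.Agent.H9.TV.Local
import Pool.Agent.H9.Lib.R_seed8.R405.Arr

/-!
The blocks of Cox coordinates of the same degree.
-/

set_option autoImplicit false

namespace Pool.Agent.H9.TV.Fan

open Finset MvPolynomial Pool.Agent.R405

variable {d N : ℕ} {F : Fan d N} {k K : Type} [Field k] [Field K]

/-- the inverse of a matrix which respects the degrees -/
theorem Blk.inv {B B' : Matrix (Fin N) (Fin N) K} (hB : F.Blk B) (h1 : B * B' = 1)
    (h2 : B' * B = 1) : F.Blk B' := by
  classical
  set B'' : Matrix (Fin N) (Fin N) K := Matrix.of fun i j =>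
    if F.LinEq (Pi.single j 1) (Pi.single i 1) then B' i j else 0 with hB''
  have h3 : B * B'' = 1 := by
    ext i j
    rw [Matrix.mul_apply]
    by_cases hij : F.LinEq (Pi.single j 1) (Pi.single i 1)
    · rw [← h1, Matrix.mul_apply]
      refine Finset.sum_congr rfl fun τ _ => ?_
      by_cases h : B i τ = 0
      · rw [h, zero_mul, zero_mul]
      · rw [hB'', Matrix.of_apply, if_pos (hij.trans (hB i τ h).symm)]
    · have h4 : (1 : Matrix (Fin N) (Fin N) K) i j = 0 := by
        rw [Matrix.one_apply_ne]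
        rintro rfl
        exact hij (LinEq.refl F _)
      rw [h4]
      refine Finset.sum_eq_zero fun τ _ => ?_
      by_cases h : B i τ = 0
      · rw [h, zero_mul]
      · rw [hB'', Matrix.of_apply, if_neg, mul_zero]
        intro h5
        exact hij (h5.trans (hB i τ h))
  have h4 : B' = B'' := by
    calc B' = B' * (B * B'') := by rw [h3, Matrix.mul_one]
      _ = B'' := by rw [← Matrix.mul_assoc, h2, Matrix.one_mul]
  intro i j hij
  rw [h4, hB'', Matrix.of_apply] at hij
  by_contra h
  rw [if_neg h] at hij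
  exact hij rfl

/-- a basis of forms which is minimal at a point and whose `i`-th form contains `X_i` -/
theorem greedy' {ι : Type} [Fintype ι] [DecidableEq ι] (f : AbsoluteValue K ℝ)
    (L : ι → Fin N → K) (hspan : ∃ β : Fin N → ι, (Matrix.of fun a => L (β a)).det ≠ 0)
    (x : Fin N → K) (hx : ∀ l, dot (L l) x ≠ 0) :
    ∃ β : Fin N → ι, (Matrix.of fun a => L (β a)).det ≠ 0 ∧ (∀ i, L (β i) i ≠ 0) ∧
      ∀ B' : Matrix (Fin N) (Fin N) K, B' * (Matrix.of fun a => L (β a)) = 1 →
        ∀ l i, Matrix.vecMul (L l) B' i ≠ 0 → f (dot (L (β i)) x) ≤ f (dot (L l) x) := by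
  classical
  obtain ⟨β, hβ, hmin⟩ := greedy f L hspan x hx
  set A : Matrix (Fin N) (Fin N) K := Matrix.of fun a => L (β a) with hA
  obtain ⟨π, hπ⟩ : ∃ π : Equiv.Perm (Fin N), ∏ i, A (π i) i ≠ 0 := by
    by_contra hcon
    push Not at hcon
    apply hβ
    rw [Matrix.det_apply]
    exact Finset.sum_eq_zero fun π _ => by rw [hcon π, smul_zero]
  have hA' : (Matrix.of fun a => L (β (π a))) = A.submatrix π id := rfl
  refine ⟨fun a => β (π a), ?_, fun i => ?_, fun B' hB' l i hi => ?_⟩
  · rw [hA', Matrix.det_permute]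
    refine mul_ne_zero ?_ hβ
    rcases Int.units_eq_one_or (Equiv.Perm.sign π) with h | h
    · rw [h]; simp
    · rw [h]; simp
  · exact Finset.prod_ne_zero_iff.1 hπ i (Finset.mem_univ _)
  · refine hmin (B'.submatrix id π.symm) ?_ l (π i) ?_
    · rw [hA'] at hB'
      rw [← hB']
      ext a b
      rw [Matrix.mul_apply, Matrix.mul_apply, ← Equiv.sum_comp π]
      refine Finset.sum_congr rfl fun j _ => ?_
      simp
    · have h1 : Matrix.vecMul (L l) (B'.submatrix id π.symm) (π i) = Matrix.vecMul (L l) B' i := by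
        simp [Matrix.vecMul, dotProduct]
      rw [h1]
      exact hi

variable (F)

/-- `X_ρ` and `X_τ` have the same degree -/
def st : Setoid (Fin N) where
  r ρ τ := F.LinEq (Pi.single ρ 1) (Pi.single τ 1)
  iseqv := ⟨fun _ => LinEq.refl F _, fun h => h.symm, fun h h' => h.trans h'⟩

/-- the degrees of the Cox coordinates -/
abbrev Q : Type := Quotient F.st

noncomputable instance : Fintype F.Q := by
  classical
  exact Fintype.ofFinite _

/-- the degree of a coordinate -/
def cl (ρ : Fin N) : F.Q := Quotient.mk F.st ρ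

variable {F}

theorem cl_eq {ρ τ : Fin N} : F.cl ρ = F.cl τ ↔ F.LinEq (Pi.single ρ 1) (Pi.single τ 1) :=
  Quotient.eq (r := F.st)

variable (F)

/-- the block of the degree `c` -/
abbrev Bl (c : F.Q) : Type := {τ : Fin N // F.cl τ = c}

noncomputable instance (c : F.Q) : Fintype (F.Bl c) := by
  classical
  exact Fintype.ofFinite _

/-- the size of a block -/
noncomputable def sz (c : F.Q) : ℕ := Fintype.card (F.Bl c)

/-- the coordinates of a block -/
noncomputable def en (c : F.Q) : Fin (F.sz c) ≃ F.Bl c := (Fintype.equivFin _).symm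

theorem sz_pos (c : F.Q) : 0 < F.sz c := by
  obtain ⟨τ, hτ⟩ := Quotient.exists_rep c
  exact Fintype.card_pos_iff.2 ⟨⟨τ, hτ⟩⟩

/-- the first coordinate of a block -/
noncomputable def i0 (c : F.Q) : Fin (F.sz c) := ⟨0, F.sz_pos c⟩

theorem sum_blocks {M : Type} [AddCommMonoid M] (g : Fin N → M) :
    ∑ τ, g τ = ∑ c : F.Q, ∑ i : Fin (F.sz c), g (F.en c i) := by
  classical
  rw [← Equiv.sum_comp (Equiv.sigmaFiberEquiv F.cl), Fintype.sum_sigma]
  refine Finset.sum_congr rfl fun c _ => ?_
  have h1 := Equiv.sum_comp (F.en c) (fun b : F.Bl c => g b)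
  rw [h1]
  exact Fintype.sum_congr _ _ fun b => rfl

/-- extension by zero of a form in the coordinates of a block -/
noncomputable def extz {R : Type} [Zero R] (c : F.Q) (z : Fin (F.sz c) → R) (τ : Fin N) : R := by
  classical
  exact if h : F.cl τ = c then z ((F.en c).symm ⟨τ, h⟩) else 0

theorem extz_en {R : Type} [Zero R] (c : F.Q) (z : Fin (F.sz c) → R) (i : Fin (F.sz c)) :
    F.extz c z (F.en c i) = z i := by
  classical
  unfold extz
  rw [dif_pos (F.en c i).2]
  congr 1
  exact (F.en c).symm_apply_apply i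

theorem extz_ne {R : Type} [Zero R] (c : F.Q) (z : Fin (F.sz c) → R) {τ : Fin N}
    (h : F.extz c z τ ≠ 0) : F.cl τ = c := by
  classical
  by_contra h1
  apply h
  unfold extz
  rw [dif_neg h1]

theorem extz_dot (c : F.Q) (z : Fin (F.sz c) → k) (x : Fin N → k) :
    ∑ τ, F.extz c z τ * x τ = ∑ i, z i * x (F.en c i) := by
  classical
  rw [F.sum_blocks, Finset.sum_eq_single c]
  · exact Finset.sum_congr rfl fun i _ => by rw [extz_en]
  · intro c' _ hc'
    refine Finset.sum_eq_zero fun i _ => ?_
    by_cases h : F.extz c z (F.en c' i) = 0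
    · rw [h, zero_mul]
    · exact absurd ((F.en c' i).2.symm.trans (F.extz_ne c z h)) hc'
  · intro h
    exact absurd (Finset.mem_univ _) h

theorem extz_cox (c : F.Q) (z : Fin (F.sz c) → k) (hz : z ≠ 0) : F.IsCoxLinear (F.extz c z) := by
  obtain ⟨i, hi⟩ := Function.ne_iff.1 hz
  refine ⟨fun h => hi ?_, fun ρ τ h1 h2 => ?_⟩
  · have h1 := congrFun h (F.en c i)
    rw [extz_en] at h1
    exact h1
  · exact cl_eq.1 ((F.extz_ne c z h1).trans (F.extz_ne c z h2).symm)

end Pool.Agent.H9.TV.Fan
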