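import Mathlib

/-!
Smooth complete toric varieties in Cox coordinates: divisors, forms, local heights and the valuative
description of multiplier ideals.
-/

set_option autoImplicit false

namespace Pool.Agent.H9.TV

open MvPolynomial NumberField IsDedekindDomain

/-- The fan of a smooth complete toric variety `X` of dimension `d` with `N` rays. The Cox coordinates
of `X` are the variables `X ρ`, `ρ : Fin N`; the divisor `X ρ = 0` is called `D_ρ`. -/
structure Fan (d N : ℕ) where
  /-- the primitive generators of the rays -/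
  u : Fin N → Fin d → ℤ
  /-- the maximal cones, given by their rays -/
  cones : Finset (Finset (Fin N))
  /-- each of the rays belongs to a cone -/
  rays : ∀ ρ, ∃ σ ∈ cones, ρ ∈ σ
  /-- `X` is smooth: the `d` generators of a maximal cone are a basis of `ℤ ^ d` -/
  smooth : ∀ σ ∈ cones, σ.card = d ∧
    ∀ l : Fin d → ℤ, ∃ c : Fin N → ℤ, (∀ ρ, ρ ∉ σ → c ρ = 0) ∧ ∀ i, ∑ ρ, c ρ * u ρ i = l i
  /-- `X` is complete: the cones cover the space -/
  complete : ∀ l : Fin d → ℝ, ∃ σ ∈ cones, ∃ c : Fin N → ℝ, (∀ ρ, 0 ≤ c ρ) ∧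
    (∀ ρ, ρ ∉ σ → c ρ = 0) ∧ ∀ i, ∑ ρ, c ρ * (u ρ i : ℝ) = l i
  /-- the cones meet in common faces -/
  faces : ∀ σ ∈ cones, ∀ τ ∈ cones, ∀ c c' : Fin N → ℝ, (∀ ρ, 0 ≤ c ρ ∧ 0 ≤ c' ρ) →
    (∀ ρ, ρ ∉ σ → c ρ = 0) → (∀ ρ, ρ ∉ τ → c' ρ = 0) →
    (∀ i, ∑ ρ, c ρ * (u ρ i : ℝ) = ∑ ρ, c' ρ * (u ρ i : ℝ)) → c = c'

namespace Fan

variable {d N : ℕ} (F : Fan d N)

/-- the order of the character `m` along the divisor `D_ρ` -/
def pair (m : Fin d → ℤ) (ρ : Fin N) : ℤ := ∑ i, m i * F.u ρ i

/-- the divisors `∑ e_ρ D_ρ` and `∑ e'_ρ D_ρ` are linearly equivalent: they differ by the divisor of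
a character -/
def LinEq (e e' : Fin N → ℤ) : Prop := ∃ m : Fin d → ℤ, ∀ ρ, e ρ = e' ρ + F.pair m ρ

/-- the divisor `∑ a_ρ D_ρ` is ample: its support function is strictly convex -/
def IsAmple (a : Fin N → ℤ) : Prop :=
  ∀ σ ∈ F.cones, ∃ m : Fin d → ℤ, (∀ ρ ∈ σ, F.pair m ρ = -a ρ) ∧ ∀ ρ, ρ ∉ σ → -a ρ < F.pair m ρ

/-- The polynomial `P` in the Cox coordinates is homogeneous of the degree of `∑ e_ρ D_ρ` in the
class group of `X`, that is, a section of the sheaf of this divisor. -/
def IsForm {k : Type} [Field k] (e : Fin N → ℤ) (P : MvPolynomial (Fin N) k) : Prop :=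
  ∀ m : Fin N →₀ ℕ, coeff m P ≠ 0 → F.LinEq (fun ρ => (m ρ : ℤ)) e

/-- the form `∑ L_ρ X_ρ` is not zero and homogeneous: the `X_ρ` with `L_ρ ≠ 0` have the same degree
in the class group of `X` -/
def IsCoxLinear {K : Type} [Field K] (L : Fin N → K) : Prop :=
  L ≠ 0 ∧ ∀ ρ τ, L ρ ≠ 0 → L τ ≠ 0 → F.LinEq (Pi.single ρ 1) (Pi.single τ 1)

/-- the coordinates of the vector `l` in the generators of a cone which contains it -/
noncomputable def crd (l : Fin d → ℝ) : Fin N → ℝ := (F.complete l).choose_spec.2.choose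

/-- The local height of the point with the Cox coordinates `x`, `x_ρ ≠ 0`, with respect to the divisor
`D_ρ`, for the absolute value `f`: the point of the torus defines the vector
`- log |x| = ∑_τ - log |x_τ| u_τ` of the space of the fan, and its coordinates in the generators of a
cone which contains it are the local heights. -/
noncomputable def lam {k : Type} [Field k] (f : AbsoluteValue k ℝ) (x : Fin N → k) (ρ : Fin N) : ℝ :=
  F.crd (fun i => ∑ τ, -Real.log (f (x τ)) * (F.u τ i : ℝ)) ρ

/-- The norm at `x` of the form `P` as a section of the sheaf of `D = ∑ e_ρ D_ρ`: `P / x ^ e` is a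
rational function, its divisor is the divisor of `P` minus `D`, and the norm is
`|P(x) / x ^ e| exp (- ∑ e_ρ λ_ρ(x))`. Minus its logarithm is the local height of `x` with respect to
the divisor `P = 0`. -/
noncomputable def secNorm {k : Type} [Field k] (f : AbsoluteValue k ℝ) (e : Fin N → ℤ)
    (P : MvPolynomial (Fin N) k) (x : Fin N → k) : ℝ :=
  f (eval x P) * Real.exp (-∑ ρ, (e ρ : ℝ) * (Real.log (f (x ρ)) + F.lam f x ρ))

/-- The real valuations `w` of the function field of `X` over `k` (written multiplicatively, trivial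
on `k`), as functions on all forms: the coordinates `X_ρ` of the centre of `w` are normalised such
that `w(X_ρ) ≤ 1`, with equality if `ρ` is not in the cone `σ`, for a cone `σ`. -/
def IsPlace {k : Type} [Field k] (w : Valuation (MvPolynomial (Fin N) k) NNReal) : Prop :=
  (∀ c : k, c ≠ 0 → w (C c) = 1) ∧ (∀ ρ, w (X ρ) ≤ 1) ∧
    (∃ σ ∈ F.cones, ∀ ρ, ρ ∉ σ → w (X ρ) = 1) ∧
    ∀ P : MvPolynomial (Fin N) k, P ≠ 0 → w P ≠ 0

/-- The norm of the canonical form at `w` is at most `r`: in Cox coordinates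
`dX_1 ∧ … ∧ dX_N = ∑_s (h_s / q) dlog p_{s,1} ∧ … ∧ dlog p_{s,N}` with `w(h_s / q) ≤ r` and nonzero
forms `p_{s,j}`; the canonical sheaf is the one of `-∑ D_ρ`. (The infimum of the `r` is
`exp (-A(w))`, `A(w)` the log discrepancy.) -/
def CanonicalNormLE {k : Type} [Field k] (w : Valuation (MvPolynomial (Fin N) k) NNReal)
    (r : NNReal) : Prop :=
  ∃ (T : ℕ) (e : Fin N → ℤ) (q : MvPolynomial (Fin N) k) (h : Fin T → MvPolynomial (Fin N) k)
    (p : Fin T → Fin N → MvPolynomial (Fin N) k),
    F.IsForm e q ∧ q ≠ 0 ∧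
    (∀ s, F.IsForm (fun ρ => e ρ + 1) (h s) ∧ w (h s) ≤ r * w q) ∧
    (∀ s j, (∃ e', F.IsForm e' (p s j)) ∧ p s j ≠ 0) ∧
    (1 : FractionRing (MvPolynomial (Fin N) k)) =
      ∑ s, algebraMap _ (FractionRing (MvPolynomial (Fin N) k)) (h s) / algebraMap _ _ q *
        (Matrix.of fun i j => algebraMap _ (FractionRing (MvPolynomial (Fin N) k))
          (pderiv i (p s j)) / algebraMap _ _ (p s j)).det

/-- The form `u` is a section of (a twist of) the multiplier ideal `I⁻` of the ideal `I` generated by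
the `P_j`: for all valuations `w`, `w(u) exp (-A(w)) ≤ w(I) = max_j w(P_j)`. -/
def InMultiplierIdeal {k : Type} [Field k] {a : ℕ} (P : Fin a → MvPolynomial (Fin N) k)
    (u : MvPolynomial (Fin N) k) : Prop :=
  ∀ w : Valuation (MvPolynomial (Fin N) k) NNReal, F.IsPlace w →
    ∃ r : NNReal, (∀ r' : NNReal, r < r' → F.CanonicalNormLE w r') ∧ w u * r ≤ ⨆ j, w (P j)

end Fan

/-- The form `P` over `k` is a product of some of the linear forms `∑ L_ρ X_ρ` over `K`, times a
constant of `K`. -/
def IsProduct {k K : Type} [Field k] [Field K] [Algebra k K] {N : ℕ} {ι : Type}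
    (L : ι → Fin N → K) (P : MvPolynomial (Fin N) k) : Prop :=
  ∃ (s : ℕ) (c : K) (σ : Fin s → ι), map (algebraMap k K) P = C c * ∏ t, ∑ ρ, C (L (σ t) ρ) * X ρ

/-- the places of a number field `k` -/
abbrev Place (k : Type) [Field k] [NumberField k] : Type :=
  InfinitePlace k ⊕ HeightOneSpectrum (𝓞 k)

/-- the absolute value of a place; at a prime `p` it is `c ↦ (N p) ^ (-ord_p c)` -/
noncomputable def absAt {k : Type} [Field k] [NumberField k] : Place k → AbsoluteValue k ℝ
  | Sum.inl w => w.1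
  | Sum.inr p => (FinitePlace.mk p).1

/-- the exponent of the absolute value of a place in the product formula -/
noncomputable def mult {k : Type} [Field k] [NumberField k] : Place k → ℝ
  | Sum.inl w => w.mult
  | Sum.inr _ => 1

/-- the absolute height of `x` with respect to the divisor `∑ a_ρ D_ρ`: the sum of its local heights
over all places (almost all of them are zero) -/
noncomputable def Fan.height {d N : ℕ} (F : Fan d N) {k : Type} [Field k] [NumberField k]
    (a : Fin N → ℤ) (x : Fin N → k) : ℝ :=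
  (∑ᶠ v : Place k, mult v * ∑ ρ, (a ρ : ℝ) * F.lam (absAt v) x ρ) / Module.finrank ℚ k

/-- the local height `λ_I(x, v)` (normalised by `[k_v : ℚ_v] / [k : ℚ]`) of the ideal sheaf `I`
generated by the forms `P j` of the degrees of the divisors with the coefficients `e j` -/
noncomputable def Fan.localHeight {d N : ℕ} (F : Fan d N) {k : Type} [Field k] [NumberField k]
    (v : Place k) {a : ℕ} (e : Fin a → Fin N → ℤ) (P : Fin a → MvPolynomial (Fin N) k)
    (x : Fin N → k) : ℝ :=
  mult v / Module.finrank ℚ k * -Real.log (⨆ j, F.secNorm (absAt v) (e j) (P j) x)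

end Pool.Agent.H9.TV
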