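import Mathlib
import Pool.Agent.H9.Lib.R_seed8.R405.Disc

/-!
Log discrepancies of monomial valuations in linear coordinates, without homogeneity.
-/

set_option autoImplicit false
set_option linter.unusedSectionVars false

open Finset

namespace Pool.Agent.H9.TV

open MvPolynomial Pool.Agent.R405

/-- bound for the norm of the canonical sheaf -/
def LogB0 {k : Type} [Field k] {n : ℕ} (w : Valuation (MvPolynomial (Fin n) k) NNReal)
    (r : NNReal) : Prop :=
  ∃ (T : ℕ) (q : MvPolynomial (Fin n) k) (h : Fin T → MvPolynomial (Fin n) k)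
    (p : Fin T → Fin n → MvPolynomial (Fin n) k),
    q ≠ 0 ∧ (∀ s, w (h s) ≤ r * w q) ∧ (∀ s j, p s j ≠ 0) ∧
    (1 : FractionRing (MvPolynomial (Fin n) k)) =
      ∑ s, algebraMap _ (FractionRing (MvPolynomial (Fin n) k)) (h s) / algebraMap _ _ q *
        (Matrix.of fun i j => algebraMap _ (FractionRing (MvPolynomial (Fin n) k))
          (pderiv i (p s j)) / algebraMap _ _ (p s j)).det

variable {k K : Type} [Field k] [Field K] [Algebra k K] {n : ℕ}

/-- the norm of the canonical sheaf at a monomial valuation -/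
theorem tor_disc0 {ρ : Fin n → NNReal} (hρ : ∀ i, 0 < ρ i) (B B' : Matrix (Fin n) (Fin n) K)
    (hB : B * B' = 1) (hB2 : B' * B = 1) (r : NNReal)
    (hL : LogB0 ((mV ρ hρ).comap (sub k B')) r) : ∏ i, ρ i ≤ r := by
  classical
  obtain ⟨T, q, h, p, hq0, hh, hp, hid⟩ := hL
  set Φ := sub k B' with hΦ
  have hΦinj : Function.Injective Φ := sub_injective B B' hB2
  -- the polynomial identity
  have hinj : Function.Injective (algebraMap (MvPolynomial (Fin n) k) (FractionRing (MvPolynomial (Fin n) k))) :=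
    IsFractionRing.injective _ _
  have hq0' : algebraMap (MvPolynomial (Fin n) k) (FractionRing (MvPolynomial (Fin n) k)) q ≠ 0 := by
    rw [Ne, FaithfulSMul.algebraMap_eq_zero_iff]
    exact hq0
  have hp0' : ∀ s j, algebraMap (MvPolynomial (Fin n) k) (FractionRing (MvPolynomial (Fin n) k)) (p s j) ≠ 0 := by
    intro s j
    rw [Ne, FaithfulSMul.algebraMap_eq_zero_iff]
    exact hp s j
  have hpoly : q * ∏ s, ∏ j, p s j = ∑ s, h s * (Matrix.of fun i j => pderiv i (p s j)).det *
      ∏ s' ∈ Finset.univ.erase s, ∏ j, p s' j := by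
    apply hinj
    have h1 : ∀ s, (Matrix.of fun i j => algebraMap _ (FractionRing (MvPolynomial (Fin n) k)) (pderiv i (p s j)) /
        algebraMap _ (FractionRing (MvPolynomial (Fin n) k)) (p s j)).det = algebraMap _ (FractionRing (MvPolynomial (Fin n) k)) (Matrix.of fun i j => pderiv i (p s j)).det /
          ∏ j, algebraMap _ (FractionRing (MvPolynomial (Fin n) k)) (p s j) := by
      intro s
      have h2 : (Matrix.of fun i j => algebraMap _ (FractionRing (MvPolynomial (Fin n) k)) (pderiv i (p s j)) /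
          algebraMap _ (FractionRing (MvPolynomial (Fin n) k)) (p s j)) = Matrix.of fun i j => (algebraMap _ (FractionRing (MvPolynomial (Fin n) k)) (p s j))⁻¹ *
          ((Matrix.of fun i j => pderiv i (p s j)).map (algebraMap _ (FractionRing (MvPolynomial (Fin n) k)))) i j := by
        ext i j
        simp only [Matrix.of_apply, Matrix.map_apply]
        rw [div_eq_inv_mul]
      rw [h2, Matrix.det_mul_row, Finset.prod_inv_distrib, RingHom.map_det, div_eq_inv_mul]
      rfl
    simp only [h1] at hid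
    rw [map_mul, map_sum, map_prod]
    simp only [map_prod, map_mul]
    have h3 : algebraMap _ (FractionRing (MvPolynomial (Fin n) k)) q * ∏ s, ∏ j, algebraMap _ (FractionRing (MvPolynomial (Fin n) k)) (p s j) =
        (algebraMap _ (FractionRing (MvPolynomial (Fin n) k)) q * ∏ s, ∏ j, algebraMap _ (FractionRing (MvPolynomial (Fin n) k)) (p s j)) * 1 := by rw [mul_one]
    rw [h3, hid, Finset.mul_sum]
    refine Finset.sum_congr rfl fun s _ => ?_
    rw [← Finset.mul_prod_erase Finset.univ _ (Finset.mem_univ s)]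
    have h4 : ∏ j, algebraMap _ (FractionRing (MvPolynomial (Fin n) k)) (p s j) ≠ 0 := Finset.prod_ne_zero_iff.2 fun j _ => hp0' s j
    field_simp
  -- apply the substitution
  have hdet0 : B'.det ≠ 0 := by
    intro h0
    have := congrArg Matrix.det hB
    rw [Matrix.det_mul, h0, mul_zero, Matrix.det_one] at this
    exact zero_ne_one this
  have hder : ∀ s, (Matrix.of fun i j => X i * pderiv i (Φ (p s j))).det =
      (∏ i, X i) * (C B'.det * Φ (Matrix.of fun i j => pderiv i (p s j)).det) := by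
    intro s
    have h1 : (Matrix.of fun i j => X i * pderiv i (Φ (p s j))) =
        Matrix.of fun i j => X i * ((B'.transpose.map C :
          Matrix (Fin n) (Fin n) (MvPolynomial (Fin n) K)) *
          ((Matrix.of fun i j => pderiv i (p s j)).map Φ)) i j := by
      ext1 i j
      simp only [Matrix.of_apply, Matrix.mul_apply, Matrix.map_apply, Matrix.transpose_apply]
      rw [pderiv_sub]
    have h2 := RingHom.map_det (C : K →+* MvPolynomial (Fin n) K) B'.transpose
    rw [Matrix.det_transpose] at h2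
    rw [h1, Matrix.det_mul_column, Matrix.det_mul, RingHom.map_det Φ, h2]
    rfl
  have hmain : C B'.det * ((∏ i, X i) * (Φ q * ∏ s, ∏ j, Φ (p s j))) =
      ∑ s, Φ (h s) * (Matrix.of fun i j => X i * pderiv i (Φ (p s j))).det *
        ∏ s' ∈ Finset.univ.erase s, ∏ j, Φ (p s' j) := by
    have h1 := congrArg Φ hpoly
    rw [map_mul, map_sum, map_prod] at h1
    simp only [map_prod, map_mul] at h1
    rw [h1, Finset.mul_sum, Finset.mul_sum]
    refine Finset.sum_congr rfl fun s _ => ?_
    rw [hder]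
    ring
  have hw := congrArg (mV ρ hρ) hmain
  rw [map_mul, map_mul, map_mul, map_prod, map_prod] at hw
  have e1 : mV ρ hρ (C B'.det : MvPolynomial (Fin n) K) = 1 := mW_C ρ hdet0
  have e2 : ∀ i, mV ρ hρ (X i : MvPolynomial (Fin n) K) = ρ i := fun i => mW_X ρ i
  simp only [e2, map_prod] at hw
  rw [e1, one_mul] at hw
  have hΦp : ∀ s j, Φ (p s j) ≠ 0 := by
    intro s j h0
    apply hp s j
    apply hΦinj
    rw [h0, map_zero]
  have hΦq : Φ q ≠ 0 := by
    intro h0
    apply hq0
    apply hΦinj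
    rw [h0, map_zero]
  have hPi : 0 < ∏ s, ∏ j, mV ρ hρ (Φ (p s j)) :=
    Finset.prod_pos fun s _ => Finset.prod_pos fun j _ => mW_pos hρ (hΦp s j)
  have hle : mV ρ hρ (∑ s, Φ (h s) * (Matrix.of fun i j => X i * pderiv i (Φ (p s j))).det *
        ∏ s' ∈ Finset.univ.erase s, ∏ j, Φ (p s' j)) ≤
      r * (mV ρ hρ (Φ q) * ∏ s, ∏ j, mV ρ hρ (Φ (p s j))) := by
    rw [mV_apply]
    refine mW_sum ρ _ _ fun s _ => ?_
    rw [← mV_apply ρ hρ, map_mul, map_mul, map_prod]
    simp only [map_prod]
    have h1 : mV ρ hρ (Φ (h s)) ≤ r * mV ρ hρ (Φ q) := hh s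
    have h2 : mV ρ hρ (Matrix.of fun i j => X i * pderiv i (Φ (p s j))).det ≤
        ∏ j, mV ρ hρ (Φ (p s j)) := mV_det hρ _
    rw [← Finset.mul_prod_erase Finset.univ (fun s => ∏ j, mV ρ hρ (Φ (p s j))) (Finset.mem_univ s)]
    calc _ ≤ (r * mV ρ hρ (Φ q)) * (∏ j, mV ρ hρ (Φ (p s j))) *
          ∏ s' ∈ Finset.univ.erase s, ∏ j, mV ρ hρ (Φ (p s' j)) :=
        mul_le_mul' (mul_le_mul' h1 h2) le_rfl
      _ = _ := by ring
  rw [← hw] at hle
  have hpos : 0 < mV ρ hρ (Φ q) * ∏ s, ∏ j, mV ρ hρ (Φ (p s j)) :=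
    mul_pos (mW_pos hρ hΦq) hPi
  exact le_of_mul_le_mul_right hle hpos

end Pool.Agent.H9.TV
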