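import Pool.Agent.H9.TV.Defs

/-!
Fans: coordinates, ample divisors.
-/

set_option autoImplicit false

namespace Pool.Agent.H9.TV.Fan

open Finset

variable {d N : ℕ} (F : Fan d N)

theorem crd_spec (l : Fin d → ℝ) : ∃ σ ∈ F.cones, (∀ ρ, 0 ≤ F.crd l ρ) ∧
    (∀ ρ, ρ ∉ σ → F.crd l ρ = 0) ∧ ∀ i, ∑ ρ, F.crd l ρ * (F.u ρ i : ℝ) = l i := by
  have h := (F.complete l).choose_spec
  exact ⟨(F.complete l).choose, h.1, h.2.choose_spec⟩

theorem crd_nonneg (l : Fin d → ℝ) (ρ : Fin N) : 0 ≤ F.crd l ρ := by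
  obtain ⟨σ, _, h, _⟩ := F.crd_spec l
  exact h ρ

theorem crd_sum (l : Fin d → ℝ) (i : Fin d) : ∑ ρ, F.crd l ρ * (F.u ρ i : ℝ) = l i := by
  obtain ⟨σ, _, _, _, h⟩ := F.crd_spec l
  exact h i

theorem crd_unique {l : Fin d → ℝ} {τ : Finset (Fin N)} (hτ : τ ∈ F.cones) {c : Fin N → ℝ}
    (hc : ∀ ρ, 0 ≤ c ρ) (hc0 : ∀ ρ, ρ ∉ τ → c ρ = 0)
    (hs : ∀ i, ∑ ρ, c ρ * (F.u ρ i : ℝ) = l i) : c = F.crd l := by
  obtain ⟨σ, hσ, h1, h2, h3⟩ := F.crd_spec l
  exact F.faces τ hτ σ hσ c (F.crd l) (fun ρ => ⟨hc ρ, h1 ρ⟩) hc0 h2 fun i => by rw [hs, h3]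

theorem crd_zero : F.crd 0 = 0 := by
  obtain ⟨σ, hσ, _⟩ := F.complete 0
  exact (F.crd_unique hσ (c := 0) (fun _ => le_rfl) (fun _ _ => rfl) (by simp)).symm

theorem pair_add (m m' : Fin d → ℤ) (ρ : Fin N) :
    F.pair (fun i => m i + m' i) ρ = F.pair m ρ + F.pair m' ρ := by
  unfold pair
  rw [← Finset.sum_add_distrib]
  exact Finset.sum_congr rfl fun i _ => by ring

theorem pair_smul (n : ℤ) (m : Fin d → ℤ) (ρ : Fin N) :
    F.pair (fun i => n * m i) ρ = n * F.pair m ρ := by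
  unfold pair
  rw [Finset.mul_sum]
  exact Finset.sum_congr rfl fun i _ => by ring

theorem LinEq.refl (e : Fin N → ℤ) : F.LinEq e e := ⟨0, fun ρ => by simp [pair]⟩

variable {F}

theorem LinEq.symm {e e' : Fin N → ℤ} (h : F.LinEq e e') : F.LinEq e' e := by
  obtain ⟨m, hm⟩ := h
  refine ⟨fun i => (-1) * m i, fun ρ => ?_⟩
  rw [pair_smul, hm]
  ring

theorem LinEq.trans {e e' e'' : Fin N → ℤ} (h : F.LinEq e e') (h' : F.LinEq e' e'') :
    F.LinEq e e'' := by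
  obtain ⟨m, hm⟩ := h
  obtain ⟨m', hm'⟩ := h'
  refine ⟨fun i => m' i + m i, fun ρ => ?_⟩
  rw [pair_add, hm, hm']
  ring

theorem LinEq.add {e e' g g' : Fin N → ℤ} (h : F.LinEq e e') (h' : F.LinEq g g') :
    F.LinEq (e + g) (e' + g') := by
  obtain ⟨m, hm⟩ := h
  obtain ⟨m', hm'⟩ := h'
  refine ⟨fun i => m i + m' i, fun ρ => ?_⟩
  rw [pair_add, Pi.add_apply, Pi.add_apply, hm, hm']
  ring

theorem LinEq.smul {e e' : Fin N → ℤ} (n : ℤ) (h : F.LinEq e e') :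
    F.LinEq (n • e) (n • e') := by
  obtain ⟨m, hm⟩ := h
  refine ⟨fun i => n * m i, fun ρ => ?_⟩
  rw [pair_smul, Pi.smul_apply, Pi.smul_apply, hm, smul_eq_mul, smul_eq_mul]
  ring

theorem LinEq.sum {ι : Type} (s : Finset ι) {e e' : ι → Fin N → ℤ}
    (h : ∀ i ∈ s, F.LinEq (e i) (e' i)) : F.LinEq (∑ i ∈ s, e i) (∑ i ∈ s, e' i) := by
  classical
  induction s using Finset.induction_on with
  | empty => simpa using LinEq.refl F _
  | insert a s ha ih =>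
    rw [Finset.sum_insert ha, Finset.sum_insert ha]
    exact (h a (Finset.mem_insert_self _ _)).add (ih fun i hi => h i (Finset.mem_insert_of_mem hi))

variable (F)

/-- characters with given values on a cone -/
theorem exists_char {σ : Finset (Fin N)} (hσ : σ ∈ F.cones) (b : Fin N → ℤ) :
    ∃ m : Fin d → ℤ, ∀ ρ ∈ σ, F.pair m ρ = b ρ := by
  classical
  obtain ⟨hcard, hgen⟩ := F.smooth σ hσ
  choose c hc0 hc using fun i : Fin d => hgen (Pi.single i 1)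
  let en : Fin d ≃ σ := (Fintype.equivFinOfCardEq (by rw [Fintype.card_coe, hcard])).symm
  set A : Matrix (Fin d) (Fin d) ℤ := Matrix.of fun i j => c i (en j) with hA
  set U : Matrix (Fin d) (Fin d) ℤ := Matrix.of fun j i => F.u (en j) i with hU
  have h1 : A * U = 1 := by
    ext i j
    rw [Matrix.mul_apply, Matrix.one_apply]
    have h2 := hc i j
    have h3 : ∑ ρ, c i ρ * F.u ρ j = ∑ s : Fin d, c i (en s) * F.u (en s) j := by
      have h4 : ∑ ρ, c i ρ * F.u ρ j = ∑ ρ ∈ σ, c i ρ * F.u ρ j := by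
        symm
        refine Finset.sum_subset (Finset.subset_univ _) fun ρ _ hρ => ?_
        rw [hc0 i ρ hρ, zero_mul]
      rw [h4, ← Finset.sum_coe_sort]
      exact (Equiv.sum_comp en (fun ρ : σ => c i ρ * F.u ρ j)).symm
    rw [h3] at h2
    simp only [hA, hU, Matrix.of_apply]
    rw [h2, Pi.single_apply]
    by_cases h : i = j
    · subst h; simp
    · rw [if_neg (Ne.symm h), if_neg h]
  have h2 : U * A = 1 := mul_eq_one_comm.1 h1
  refine ⟨fun i => ∑ s, A i s * b (en s), fun ρ hρ => ?_⟩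
  obtain ⟨s, hs⟩ := en.surjective ⟨ρ, hρ⟩
  have hs' : ((en s : σ) : Fin N) = ρ := by rw [hs]
  have h3 : F.pair (fun i => ∑ s, A i s * b (en s)) ρ = ∑ t, (U * A) s t * b (en t) := by
    unfold pair
    simp only [Matrix.mul_apply, Finset.sum_mul]
    rw [Finset.sum_comm]
    refine Finset.sum_congr rfl fun t _ => Finset.sum_congr rfl fun i _ => ?_
    simp only [hU, Matrix.of_apply, hs']
    ring
  rw [h3, h2]
  simp only [Matrix.one_apply, ite_mul, one_mul, zero_mul]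
  rw [Finset.sum_ite_eq, if_pos (Finset.mem_univ _), hs']

/-- generated by sections -/
def IsNef (a : Fin N → ℤ) : Prop :=
  ∀ σ ∈ F.cones, ∃ m : Fin d → ℤ, (∀ ρ ∈ σ, F.pair m ρ = -a ρ) ∧ ∀ ρ, -a ρ ≤ F.pair m ρ

variable {F}

/-- a multiple of an ample divisor plus any divisor is generated by sections -/
theorem IsAmple.nef_add {a : Fin N → ℤ} (ha : F.IsAmple a) (b : Fin N → ℤ) :
    ∃ n0 : ℕ, ∀ n : ℕ, n0 ≤ n → F.IsNef ((n : ℤ) • a + b) := by
  classical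
  choose! m hm using ha
  choose! c hc using fun σ (hσ : σ ∈ F.cones) => F.exists_char hσ (-b)
  -- a bound
  have hb : ∃ n0 : ℕ, ∀ σ ∈ F.cones, ∀ ρ, |F.pair (c σ) ρ + b ρ| ≤ n0 := by
    refine ⟨∑ σ ∈ F.cones, ∑ ρ, (F.pair (c σ) ρ + b ρ).natAbs, fun σ hσ ρ => ?_⟩
    have h1 : (F.pair (c σ) ρ + b ρ).natAbs ≤ ∑ σ ∈ F.cones, ∑ ρ, (F.pair (c σ) ρ + b ρ).natAbs :=
      (Finset.single_le_sum (f := fun ρ => (F.pair (c σ) ρ + b ρ).natAbs)
        (fun _ _ => Nat.zero_le _) (Finset.mem_univ ρ)).trans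
      (Finset.single_le_sum (f := fun σ => ∑ ρ, (F.pair (c σ) ρ + b ρ).natAbs)
        (fun _ _ => Nat.zero_le _) hσ)
    rw [Int.abs_eq_natAbs]
    exact_mod_cast h1
  obtain ⟨n0, hn0⟩ := hb
  refine ⟨n0, fun n hn σ hσ => ⟨fun i => (n : ℤ) * m σ i + c σ i, ?_, ?_⟩⟩
  · intro ρ hρ
    rw [pair_add, pair_smul, (hm σ hσ).1 ρ hρ, hc σ hσ ρ hρ, Pi.add_apply, Pi.smul_apply,
      Pi.neg_apply, smul_eq_mul]
    ring
  · intro ρ
    rw [pair_add, pair_smul, Pi.add_apply, Pi.smul_apply, smul_eq_mul]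
    by_cases hρ : ρ ∈ σ
    · rw [(hm σ hσ).1 ρ hρ, hc σ hσ ρ hρ, Pi.neg_apply]
      linarith
    · have h1 := (hm σ hσ).2 ρ hρ
      have h2 := neg_le_of_abs_le (hn0 σ hσ ρ)
      have h3 : (n : ℤ) * 1 ≤ n * (F.pair (m σ) ρ + a ρ) :=
        mul_le_mul_of_nonneg_left (by linarith) (Nat.cast_nonneg _)
      have h4 : (n0 : ℤ) ≤ n := by exact_mod_cast hn
      nlinarith

theorem IsAmple.nef {a : Fin N → ℤ} (ha : F.IsAmple a) : F.IsNef a := by
  intro σ hσ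
  obtain ⟨m, h1, h2⟩ := ha σ hσ
  refine ⟨m, h1, fun ρ => ?_⟩
  by_cases hρ : ρ ∈ σ
  · exact (h1 ρ hρ).ge
  · exact (h2 ρ hρ).le

/-- the coordinates at which a monomial section of an ample divisor vanishes are not in the monomial
only if they belong to a cone -/
theorem IsAmple.face {a : Fin N → ℤ} (ha : F.IsAmple a) (E : Fin N → ℤ) (hE0 : ∀ ρ, 0 ≤ E ρ)
    (hE : F.LinEq E a) : ∃ σ ∈ F.cones, ∀ ρ, ρ ∉ σ → E ρ ≠ 0 := by
  classical
  obtain ⟨p, hp⟩ := hE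
  obtain ⟨σ, hσ, h0, h1, h2⟩ := F.crd_spec fun i => ∑ ρ, if E ρ = 0 then (F.u ρ i : ℝ) else 0
  refine ⟨σ, hσ, fun ρ0 hρ0 hE0' => ?_⟩
  obtain ⟨m, hm1, hm2⟩ := ha σ hσ
  set c := F.crd fun i => ∑ ρ, if E ρ = 0 then (F.u ρ i : ℝ) else 0 with hc
  -- a pairing with the vector
  have hpair : ∀ q : Fin d → ℤ, ∑ ρ, c ρ * (F.pair q ρ : ℝ) =
      ∑ ρ, if E ρ = 0 then (F.pair q ρ : ℝ) else 0 := by
    intro q
    have e1 : ∀ g : Fin N → ℝ, ∑ ρ, g ρ * (F.pair q ρ : ℝ) =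
        ∑ i, (q i : ℝ) * ∑ ρ, g ρ * (F.u ρ i : ℝ) := by
      intro g
      unfold pair
      push_cast
      simp only [Finset.mul_sum]
      rw [Finset.sum_comm]
      exact Finset.sum_congr rfl fun i _ => Finset.sum_congr rfl fun ρ _ => by ring
    rw [e1 c]
    have e2 : ∑ ρ, (if E ρ = 0 then (F.pair q ρ : ℝ) else 0) =
        ∑ ρ, (if E ρ = 0 then (1 : ℝ) else 0) * (F.pair q ρ : ℝ) :=
      Finset.sum_congr rfl fun ρ _ => by split_ifs <;> simp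
    rw [e2, e1]
    refine Finset.sum_congr rfl fun i _ => ?_
    rw [h2 i]
    congr 1
    exact Finset.sum_congr rfl fun ρ _ => by split_ifs <;> simp
  -- `-⟨p, l⟩ ≤ -⟨m, l⟩`
  have i1 : -∑ ρ, c ρ * (F.pair p ρ : ℝ) ≤ -∑ ρ, c ρ * (F.pair m ρ : ℝ) := by
    rw [neg_le_neg_iff]
    refine Finset.sum_le_sum fun ρ _ => ?_
    by_cases hρ : ρ ∈ σ
    · refine mul_le_mul_of_nonneg_left ?_ (h0 ρ)
      have h3 := hm1 ρ hρ
      have h4 := hp ρ
      have h5 := hE0 ρ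
      have : F.pair m ρ ≤ F.pair p ρ := by linarith
      exact_mod_cast this
    · rw [h1 ρ hρ, zero_mul, zero_mul]
  have i2 : ∑ ρ, (if E ρ = 0 then (F.pair p ρ : ℝ) else 0) <
      ∑ ρ, if E ρ = 0 then (F.pair m ρ : ℝ) else 0 := by
    refine Finset.sum_lt_sum (fun ρ _ => ?_) ⟨ρ0, Finset.mem_univ _, ?_⟩
    · by_cases hE' : E ρ = 0
      · rw [if_pos hE', if_pos hE']
        have h4 := hp ρ
        have : F.pair p ρ ≤ F.pair m ρ := by
          by_cases hρ : ρ ∈ σ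
          · rw [hm1 ρ hρ]; linarith
          · have := hm2 ρ hρ; linarith
        exact_mod_cast this
      · rw [if_neg hE', if_neg hE']
    · rw [if_pos hE0', if_pos hE0']
      have h4 := hp ρ0
      have h5 := hm2 ρ0 hρ0
      have : F.pair p ρ0 < F.pair m ρ0 := by linarith
      exact_mod_cast this
  rw [hpair, hpair] at i1
  linarith

/-- the support function of a divisor generated by sections is at least the linear functions -/
theorem IsNef.le {b : Fin N → ℤ} (m : Fin d → ℤ) (hm : ∀ ρ, -b ρ ≤ F.pair m ρ)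
    (l : Fin d → ℝ) : -∑ i, (m i : ℝ) * l i ≤ ∑ ρ, (b ρ : ℝ) * F.crd l ρ := by
  have h1 : ∑ i, (m i : ℝ) * l i = ∑ ρ, (F.pair m ρ : ℝ) * F.crd l ρ := by
    simp only [← F.crd_sum l]
    unfold pair
    push_cast
    simp only [Finset.mul_sum, Finset.sum_mul]
    rw [Finset.sum_comm]
    exact Finset.sum_congr rfl fun i _ => Finset.sum_congr rfl fun ρ _ => by ring
  rw [h1, ← Finset.sum_neg_distrib]
  refine Finset.sum_le_sum fun ρ _ => ?_
  rw [← neg_mul]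
  refine mul_le_mul_of_nonneg_right ?_ (F.crd_nonneg l ρ)
  have := hm ρ
  have h2 : -F.pair m ρ ≤ b ρ := by linarith
  exact_mod_cast h2

end Pool.Agent.H9.TV.Fan
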