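import Pool.Agent.H9.TV.Norm
import Pool.Agent.H9.TV.Disc
import Pool.Agent.H9.Lib.R_seed8.R405.MI

/-!
Forms in Cox coordinates.
-/

set_option autoImplicit false

namespace Pool.Agent.H9.TV.Fan

open Finset MvPolynomial Pool.Agent.R405

variable {d N : ℕ} {F : Fan d N} {k K : Type} [Field k] [Field K] [Algebra k K]

theorem IsForm.lin {e e' : Fin N → ℤ} {P : MvPolynomial (Fin N) K} (hP : F.IsForm e P)
    (h : F.LinEq e e') : F.IsForm e' P := fun m hm => (hP m hm).trans h

theorem IsForm.zero (e : Fin N → ℤ) : F.IsForm e (0 : MvPolynomial (Fin N) K) := fun m hm =>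
  absurd (coeff_zero m) hm

theorem IsForm.add {e : Fin N → ℤ} {P Q : MvPolynomial (Fin N) K} (hP : F.IsForm e P)
    (hQ : F.IsForm e Q) : F.IsForm e (P + Q) := by
  intro m hm
  rw [coeff_add] at hm
  by_cases h : coeff m P = 0
  · rw [h, zero_add] at hm
    exact hQ m hm
  · exact hP m h

theorem IsForm.sum {ι : Type} (s : Finset ι) {e : Fin N → ℤ} {P : ι → MvPolynomial (Fin N) K}
    (h : ∀ i ∈ s, F.IsForm e (P i)) : F.IsForm e (∑ i ∈ s, P i) := by
  classical
  induction s using Finset.induction_on with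
  | empty => rw [Finset.sum_empty]; exact IsForm.zero e
  | insert a s ha ih =>
    rw [Finset.sum_insert ha]
    exact (h a (Finset.mem_insert_self _ _)).add (ih fun i hi => h i (Finset.mem_insert_of_mem hi))

theorem IsForm.C (c : K) : F.IsForm 0 (C c : MvPolynomial (Fin N) K) := by
  classical
  intro m hm
  rw [coeff_C] at hm
  have h1 : (0 : Fin N →₀ ℕ) = m := by
    by_contra h
    exact hm (if_neg h)
  rw [← h1]
  exact LinEq.refl F _

theorem IsForm.mul {e e' : Fin N → ℤ} {P Q : MvPolynomial (Fin N) K} (hP : F.IsForm e P)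
    (hQ : F.IsForm e' Q) : F.IsForm (e + e') (P * Q) := by
  classical
  intro m hm
  rw [coeff_mul] at hm
  obtain ⟨⟨a, b⟩, hab, h⟩ := Finset.exists_ne_zero_of_sum_ne_zero hm
  rw [Finset.HasAntidiagonal.mem_antidiagonal] at hab
  have h1 := (hP a (left_ne_zero_of_mul h)).add (hQ b (right_ne_zero_of_mul h))
  have h2 : (fun ρ => (m ρ : ℤ)) = (fun ρ => (a ρ : ℤ)) + fun ρ => (b ρ : ℤ) := by
    funext ρ
    rw [← hab]
    simp
  rw [h2]
  exact h1

theorem IsForm.C_mul {e : Fin N → ℤ} {P : MvPolynomial (Fin N) K} (c : K) (hP : F.IsForm e P) :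
    F.IsForm e (MvPolynomial.C c * P) := by
  have h := (IsForm.C (F := F) c).mul hP
  rwa [zero_add] at h

theorem IsForm.prod {ι : Type} (s : Finset ι) {e : ι → Fin N → ℤ}
    {P : ι → MvPolynomial (Fin N) K} (h : ∀ i ∈ s, F.IsForm (e i) (P i)) :
    F.IsForm (∑ i ∈ s, e i) (∏ i ∈ s, P i) := by
  classical
  induction s using Finset.induction_on with
  | empty =>
    rw [Finset.sum_empty, Finset.prod_empty, ← C_1]
    exact IsForm.C 1
  | insert a s ha ih =>
    rw [Finset.sum_insert ha, Finset.prod_insert ha]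
    exact (h a (Finset.mem_insert_self _ _)).mul (ih fun i hi => h i (Finset.mem_insert_of_mem hi))

theorem IsForm.pow {e : Fin N → ℤ} {P : MvPolynomial (Fin N) K} (hP : F.IsForm e P) (n : ℕ) :
    F.IsForm ((n : ℤ) • e) (P ^ n) := by
  induction n with
  | zero =>
    rw [pow_zero, Nat.cast_zero, zero_smul, ← C_1]
    exact IsForm.C 1
  | succ n ih =>
    rw [pow_succ, Nat.cast_succ, add_smul, one_smul]
    exact ih.mul hP

theorem isForm_lff {b : Fin N → K} {τ : Fin N}
    (h : ∀ i, b i ≠ 0 → F.LinEq (Pi.single i 1) (Pi.single τ 1)) :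
    F.IsForm (Pi.single τ 1) (lff b) := by
  classical
  unfold lff
  refine IsForm.sum _ fun i _ => ?_
  by_cases hb : b i = 0
  · rw [hb, C_0, zero_mul]
    exact IsForm.zero _
  · refine IsForm.C_mul _ (IsForm.lin (e := Pi.single i 1) ?_ (h i hb))
    intro m hm
    rw [coeff_X] at hm
    have h1 : Finsupp.single i 1 = m := by
      by_contra h
      exact hm (if_neg h)
    rw [← h1]
    have h2 : (fun ρ => ((Finsupp.single i 1 : Fin N →₀ ℕ) ρ : ℤ)) = Pi.single i 1 := by
      funext ρ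
      rw [Finsupp.single_apply, Pi.single_apply]
      by_cases h3 : i = ρ
      · subst h3; simp
      · rw [if_neg h3, if_neg (Ne.symm h3)]
        rfl
    rw [h2]
    exact LinEq.refl F _

theorem sum_smul_single (m : Fin N →₀ ℕ) :
    ∑ τ, ((m τ : ℕ) : ℤ) • (Pi.single τ 1 : Fin N → ℤ) = fun ρ => (m ρ : ℤ) := by
  classical
  funext ρ
  rw [Finset.sum_apply, Finset.sum_eq_single ρ]
  · simp
  · intro τ _ hτ
    rw [Pi.smul_apply, Pi.single_eq_of_ne (Ne.symm hτ), smul_zero]
  · intro h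
    exact absurd (Finset.mem_univ _) h

theorem IsForm.sub {B' : Matrix (Fin N) (Fin N) K}
    (hB' : ∀ τ i, B' τ i ≠ 0 → F.LinEq (Pi.single i 1) (Pi.single τ 1)) {e : Fin N → ℤ}
    {P : MvPolynomial (Fin N) k} (hP : F.IsForm e P) : F.IsForm e (sub k B' P) := by
  classical
  have h1 : Pool.Agent.R405.sub k B' P = ∑ m ∈ P.support,
      MvPolynomial.C (algebraMap k K (coeff m P)) * ∏ τ, lff (B' τ) ^ m τ := by
    unfold Pool.Agent.R405.sub
    rw [coe_eval₂Hom, eval₂_eq']
    rfl
  rw [h1]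
  refine IsForm.sum _ fun m hm => IsForm.C_mul _ ?_
  have h2 := IsForm.prod (F := F) Finset.univ (e := fun τ => ((m τ : ℕ) : ℤ) • Pi.single τ 1)
    (P := fun τ => lff (B' τ) ^ m τ) fun τ _ => (isForm_lff (hB' τ)).pow (m τ)
  rw [sum_smul_single] at h2
  exact h2.lin (hP m (mem_support_iff.1 hm))

end Pool.Agent.H9.TV.Fan
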