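import Pool.Agent.H9.TV.Norm

/-!
Sums over all places.
-/

set_option autoImplicit false

namespace Pool.Agent.H9.TV

open Finset NumberField IsDedekindDomain Height

theorem finsum_place {α β : Type} [Fintype α] (g : α ⊕ β → ℝ)
    (h : (Function.support fun b => g (Sum.inr b)).Finite) :
    ∑ᶠ v, g v = ∑ a, g (Sum.inl a) + ∑ᶠ b, g (Sum.inr b) := by
  classical
  rw [finsum_eq_sum_of_support_subset (s := (Finset.univ : Finset α).disjSum h.toFinset) g,
    Finset.sum_disjSum, finsum_eq_sum_of_support_subset (s := h.toFinset)]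
  · intro b hb
    simpa using hb
  · intro v hv
    rw [Finset.mem_coe]
    rcases v with a | b
    · exact Finset.inl_mem_disjSum.2 (Finset.mem_univ _)
    · exact Finset.inr_mem_disjSum.2 (by simpa using hv)

variable {k : Type} [Field k] [NumberField k]

theorem mult_nonneg (v : Place k) : 0 ≤ mult v := by
  rcases v with w | p
  · exact Nat.cast_nonneg _
  · exact zero_le_one

theorem supp_fin {y : k} (hy : y ≠ 0) :
    (Function.support fun p : HeightOneSpectrum (𝓞 k) => Real.log (FinitePlace.mk p y)).Finite := by
  have h := FinitePlace.hasFiniteMulSupport hy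
  have h1 : (Function.mulSupport fun p : HeightOneSpectrum (𝓞 k) => FinitePlace.mk p y).Finite := by
    have h2 : (Function.mulSupport fun p : HeightOneSpectrum (𝓞 k) => FinitePlace.mk p y) =
        (FinitePlace.equivHeightOneSpectrum (K := k)).symm ⁻¹'
          (Function.mulSupport fun v : FinitePlace k => v y) := by
      ext p
      simp only [Function.mem_mulSupport, Set.mem_preimage]
      rw [FinitePlace.equivHeightOneSpectrum_symm_apply]
      rfl
    rw [h2]
    exact h.preimage (Equiv.injective _).injOn
  refine h1.subset fun p hp => ?_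
  rw [Function.mem_support] at hp
  rw [Function.mem_mulSupport]
  intro h2
  exact hp (by rw [h2, Real.log_one])

theorem supp_log {y : k} (hy : y ≠ 0) :
    (Function.support fun v : Place k => mult v * Real.log (absAt v y)).Finite := by
  refine ((Set.finite_range (Sum.inl : InfinitePlace k → Place k)).union
    ((supp_fin hy).image (Sum.inr : HeightOneSpectrum (𝓞 k) → Place k))).subset ?_
  intro v hv
  rcases v with w | p
  · exact Or.inl ⟨w, rfl⟩
  · refine Or.inr ⟨p, ?_, rfl⟩
    rw [Function.mem_support] at hv ⊢
    intro h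
    apply hv
    show (1 : ℝ) * Real.log (FinitePlace.mk p y) = 0
    rw [h, mul_zero]

/-- the product formula -/
theorem prodf {y : k} (hy : y ≠ 0) : ∑ᶠ v : Place k, mult v * Real.log (absAt v y) = 0 := by
  have h0 : (Function.support fun p : HeightOneSpectrum (𝓞 k) =>
      (fun v : Place k => mult v * Real.log (absAt v y)) (Sum.inr p)).Finite := by
    have h1 : (fun p : HeightOneSpectrum (𝓞 k) =>
        (fun v : Place k => mult v * Real.log (absAt v y)) (Sum.inr p)) =
        fun p => Real.log (FinitePlace.mk p y) := by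
      funext p
      exact one_mul _
    rw [h1]
    exact supp_fin hy
  rw [finsum_place _ h0]
  have h := NumberField.prod_abs_eq_one hy
  have hpos : ∀ v : InfinitePlace k, v y ^ v.mult ≠ 0 := fun v => pow_ne_zero _ (by simpa using hy)
  have hfin : (Function.mulSupport fun v : FinitePlace k => v y).Finite :=
    FinitePlace.hasFiniteMulSupport hy
  have hfp : ∀ v : FinitePlace k, v y ≠ 0 := fun v => by simpa using hy
  have h1 : Real.log (∏ᶠ v : FinitePlace k, v y) = ∑ᶠ v : FinitePlace k, Real.log (v y) := by
    rw [finprod_eq_prod_of_mulSupport_subset (s := hfin.toFinset) _ (by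
        intro v hv
        simpa using hv),
      Real.log_prod (fun v _ => hfp v),
      finsum_eq_sum_of_support_subset (s := hfin.toFinset)]
    intro v hv
    rw [Function.mem_support] at hv
    simp only [Set.Finite.coe_toFinset, Function.mem_mulSupport]
    intro h
    exact hv (by rw [h, Real.log_one])
  have h2 : Real.log (∏ v : InfinitePlace k, v y ^ v.mult) =
      ∑ v : InfinitePlace k, v.mult * Real.log (v y) := by
    rw [Real.log_prod (fun v _ => hpos v)]
    refine Finset.sum_congr rfl fun v _ => ?_
    rw [Real.log_pow]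
  have h3 : (∏ᶠ v : FinitePlace k, v y) ≠ 0 := by
    intro h0
    rw [h0, mul_zero] at h
    exact zero_ne_one h
  have h4 : ∑ᶠ p : HeightOneSpectrum (𝓞 k), Real.log (FinitePlace.mk p y) =
      ∑ᶠ v : FinitePlace k, Real.log (v y) := by
    rw [← finsum_comp_equiv (FinitePlace.equivHeightOneSpectrum (K := k)).symm]
    refine finsum_congr fun p => ?_
    rw [FinitePlace.equivHeightOneSpectrum_symm_apply]
    rfl
  have h5 : ∑ᶠ p : HeightOneSpectrum (𝓞 k), (fun v : Place k => mult v * Real.log (absAt v y))
      (Sum.inr p) = ∑ᶠ v : FinitePlace k, Real.log (v y) := by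
    rw [← h4]
    exact finsum_congr fun p => one_mul _
  rw [h5, ← h1]
  have h6 : ∑ a : InfinitePlace k, (fun v : Place k => mult v * Real.log (absAt v y)) (Sum.inl a) =
      Real.log (∏ v : InfinitePlace k, v y ^ v.mult) := h2.symm
  rw [h6, ← Real.log_mul (Finset.prod_ne_zero_iff.2 fun v _ => hpos v) h3, h, Real.log_one]

theorem supp_sup {n : ℕ} {x : Fin n → k} (hx : ∀ i, x i ≠ 0) :
    (Function.support fun v : Place k => mult v * Real.log (⨆ i, absAt v (x i))).Finite := by
  have h1 : (⋃ i, Function.support fun v : Place k => mult v * Real.log (absAt v (x i))).Finite :=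
    Set.finite_iUnion fun i => supp_log (hx i)
  refine (h1.union (Set.finite_range (Sum.inl : InfinitePlace k → Place k))).subset ?_
  intro v hv
  rcases v with w | p
  · exact Or.inr ⟨w, rfl⟩
  · left
    by_contra h
    rw [Set.mem_iUnion] at h
    push Not at h
    rw [Function.mem_support] at hv
    apply hv
    have h2 : ∀ i, absAt (Sum.inr p : Place k) (x i) = 1 := by
      intro i
      have h3 := h i
      rw [Function.mem_support, not_not] at h3
      have h4 : Real.log (absAt (Sum.inr p : Place k) (x i)) = 0 := by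
        have : (mult (Sum.inr p : Place k)) = 1 := rfl
        rw [this, one_mul] at h3
        exact h3
      have h5 := (absAt (Sum.inr p : Place k)).pos_iff.2 (hx i)
      exact Real.eq_one_of_pos_of_log_eq_zero h5 h4
    rcases isEmpty_or_nonempty (Fin n) with hn | hn
    · rw [Real.iSup_of_isEmpty, Real.log_zero, mul_zero]
    · simp [h2]

theorem logHeight_place {n : ℕ} (hn : 0 < n) (x : Fin n → k) (hx : ∀ i, x i ≠ 0) :
    logHeight x = ∑ᶠ v : Place k, mult v * Real.log (⨆ i, absAt v (x i)) := by
  have hn' : Nonempty (Fin n) := ⟨⟨0, hn⟩⟩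
  have hx0 : x ≠ 0 := fun h => hx ⟨0, hn⟩ (congrFun h _)
  have hpos : ∀ f : AbsoluteValue k ℝ, 0 < ⨆ i, f (x i) := fun f =>
    (f.pos_iff.2 (hx ⟨0, hn⟩)).trans_le
      (le_ciSup (f := fun i => f (x i)) (Set.finite_range _).bddAbove ⟨0, hn⟩)
  have hs := supp_sup (k := k) hx
  have h0 : (Function.support fun p : HeightOneSpectrum (𝓞 k) =>
      (fun v : Place k => mult v * Real.log (⨆ i, absAt v (x i))) (Sum.inr p)).Finite := by
    have h1 := hs.preimage (f := (Sum.inr : HeightOneSpectrum (𝓞 k) → Place k))
      Sum.inr_injective.injOn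
    exact h1
  rw [finsum_place _ h0]
  rw [logHeight_eq_log_mulHeight, NumberField.mulHeight_eq hx0]
  have hfs : (Function.mulSupport fun v : FinitePlace k => ⨆ i, v (x i)).Finite := by
    have h1 : (⋃ i, Function.mulSupport fun v : FinitePlace k => v (x i)).Finite :=
      Set.finite_iUnion fun i => FinitePlace.hasFiniteMulSupport (hx i)
    refine h1.subset ?_
    intro v hv
    by_contra h
    rw [Set.mem_iUnion] at h
    push Not at h
    apply hv
    have h2 : ∀ i, v (x i) = 1 := fun i => by
      have := h i
      rwa [Function.mem_mulSupport, not_not] at this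
    simp [h2]
  have hfp : ∀ v : FinitePlace k, (⨆ i, v (x i)) ≠ 0 := fun v => (hpos v.1).ne'
  have hip : ∀ v : InfinitePlace k, (⨆ i, v (x i)) ^ v.mult ≠ 0 := fun v =>
    pow_ne_zero _ (hpos v.1).ne'
  have h1 : Real.log (∏ᶠ v : FinitePlace k, ⨆ i, v (x i)) =
      ∑ᶠ v : FinitePlace k, Real.log (⨆ i, v (x i)) := by
    rw [finprod_eq_prod_of_mulSupport_subset (s := hfs.toFinset) _ (by
        intro v hv
        simpa using hv),
      Real.log_prod (fun v _ => hfp v),
      finsum_eq_sum_of_support_subset (s := hfs.toFinset)]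
    intro v hv
    rw [Function.mem_support] at hv
    simp only [Set.Finite.coe_toFinset, Function.mem_mulSupport]
    intro h
    exact hv (by rw [h, Real.log_one])
  have h3 : (∏ᶠ v : FinitePlace k, ⨆ i, v (x i)) ≠ 0 := by
    rw [finprod_eq_prod_of_mulSupport_subset (s := hfs.toFinset) _ (by
        intro v hv
        simpa using hv)]
    exact Finset.prod_ne_zero_iff.2 fun v _ => hfp v
  have h4 : ∑ᶠ p : HeightOneSpectrum (𝓞 k), (fun v : Place k => mult v *
      Real.log (⨆ i, absAt v (x i))) (Sum.inr p) =
      ∑ᶠ v : FinitePlace k, Real.log (⨆ i, v (x i)) := by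
    rw [← finsum_comp_equiv (FinitePlace.equivHeightOneSpectrum (K := k)).symm]
    refine finsum_congr fun p => ?_
    simp only [FinitePlace.equivHeightOneSpectrum_symm_apply]
    exact one_mul _
  rw [h4, Real.log_mul (Finset.prod_ne_zero_iff.2 fun v _ => hip v) h3, h1]
  congr 1
  rw [Real.log_prod (fun v _ => hip v)]
  refine Finset.sum_congr rfl fun v _ => ?_
  rw [Real.log_pow]
  rfl

end Pool.Agent.H9.TV
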