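import Pool.Agent.H9.TV.Glob

/-!
Heights with respect to the invariant divisors.
-/

set_option autoImplicit false

namespace Pool.Agent.H9.TV.Fan

open Finset NumberField IsDedekindDomain Height

variable {d N : ℕ} (F : Fan d N) {k : Type} [Field k] [NumberField k]

theorem mult_pos (v : Place k) : 0 < mult v := by
  rcases v with w | p
  · exact Nat.cast_pos.2 w.mult_pos
  · exact zero_lt_one

/-- the finite set of places at which some coordinate is not a unit -/
theorem supp_union {x : Fin N → k} (hx : ∀ ρ, x ρ ≠ 0) :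
    (⋃ ρ, Function.support fun v : Place k => mult v * Real.log (absAt v (x ρ))).Finite :=
  Set.finite_iUnion fun ρ => supp_log (hx ρ)

theorem lam_eq_zero {x : Fin N → k} {v : Place k}
    (hv : v ∉ ⋃ ρ, Function.support fun v : Place k => mult v * Real.log (absAt v (x ρ)))
    (ρ : Fin N) : F.lam (absAt v) x ρ = 0 := by
  rw [Set.mem_iUnion] at hv
  push Not at hv
  have h1 : ∀ τ, Real.log (absAt v (x τ)) = 0 := by
    intro τ
    have h2 := hv τ
    rw [Function.mem_support, not_not] at h2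
    exact (mul_eq_zero.1 h2).resolve_left (mult_pos v).ne'
  unfold lam
  have h2 : (fun i => ∑ τ, -Real.log (absAt v (x τ)) * (F.u τ i : ℝ)) = 0 := by
    funext i
    simp [h1]
  rw [h2, F.crd_zero]
  rfl

theorem supp_lam {x : Fin N → k} (hx : ∀ ρ, x ρ ≠ 0) (ρ : Fin N) :
    (Function.support fun v : Place k => mult v * F.lam (absAt v) x ρ).Finite := by
  refine (supp_union hx).subset fun v hv => ?_
  by_contra h
  rw [Function.mem_support] at hv
  exact hv (by rw [F.lam_eq_zero h, mul_zero])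

/-- the height with respect to `D_ρ` -/
noncomputable def hh (x : Fin N → k) (ρ : Fin N) : ℝ :=
  ∑ᶠ v : Place k, mult v * F.lam (absAt v) x ρ

theorem hh_nonneg (x : Fin N → k) (ρ : Fin N) : 0 ≤ F.hh x ρ :=
  finsum_nonneg fun v => mul_nonneg (mult_nonneg v) (F.lam_nonneg _ _ _)

theorem height_eq {x : Fin N → k} (hx : ∀ ρ, x ρ ≠ 0) (a : Fin N → ℤ) :
    F.height a x = (∑ ρ, (a ρ : ℝ) * F.hh x ρ) / Module.finrank ℚ k := by
  unfold height
  congr 1
  have h1 : ∀ v : Place k, mult v * ∑ ρ, (a ρ : ℝ) * F.lam (absAt v) x ρ =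
      ∑ ρ, (a ρ : ℝ) * (mult v * F.lam (absAt v) x ρ) := by
    intro v
    rw [Finset.mul_sum]
    exact Finset.sum_congr rfl fun ρ _ => by ring
  simp only [h1]
  rw [finsum_sum_comm]
  · refine Finset.sum_congr rfl fun ρ _ => ?_
    rw [← mul_finsum]
    rfl
  · intro ρ _
    refine (F.supp_lam hx ρ).subset fun v hv => ?_
    rw [Function.mem_support] at hv ⊢
    intro h
    exact hv (by rw [h, mul_zero])

/-- the sum of the normalisations over all places -/
theorem finsum_tt {x : Fin N → k} (hx : ∀ ρ, x ρ ≠ 0) (ρ : Fin N) :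
    ∑ᶠ v : Place k, mult v * -F.tt (absAt v) x ρ = F.hh x ρ := by
  have h1 : ∀ v : Place k, mult v * -F.tt (absAt v) x ρ =
      mult v * Real.log (absAt v (x ρ)) + mult v * F.lam (absAt v) x ρ := by
    intro v
    unfold tt
    ring
  simp only [h1]
  rw [finsum_add_distrib (supp_log (hx ρ)) (F.supp_lam hx ρ), prodf (hx ρ), zero_add]
  rfl

theorem supp_tt {x : Fin N → k} (hx : ∀ ρ, x ρ ≠ 0) (ρ : Fin N) :
    (Function.support fun v : Place k => mult v * -F.tt (absAt v) x ρ).Finite := by
  refine ((supp_log (hx ρ)).union (F.supp_lam hx ρ)).subset fun v hv => ?_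
  by_contra h
  rw [Set.mem_union, not_or, Function.mem_support, Function.mem_support, not_not, not_not] at h
  rw [Function.mem_support] at hv
  apply hv
  have h1 : mult v * -F.tt (absAt v) x ρ =
      mult v * Real.log (absAt v (x ρ)) + mult v * F.lam (absAt v) x ρ := by
    unfold tt
    ring
  rw [h1, h.1, h.2, add_zero]

variable {F}

theorem hh_eq {x : Fin N → k} (hx : ∀ ρ, x ρ ≠ 0) {ρ τ : Fin N}
    (h : F.LinEq (Pi.single ρ 1) (Pi.single τ 1)) : F.hh x ρ = F.hh x τ := by
  rw [← F.finsum_tt hx, ← F.finsum_tt hx]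
  exact finsum_congr fun v => by rw [tt_eq h]

/-- the height with respect to a divisor generated by sections is not negative -/
theorem IsNef.height_nonneg {b : Fin N → ℤ} (hb : F.IsNef b) {x : Fin N → k}
    (hx : ∀ ρ, x ρ ≠ 0) : 0 ≤ ∑ ρ, (b ρ : ℝ) * F.hh x ρ := by
  obtain ⟨σ, hσ, _⟩ := F.complete 0
  obtain ⟨m, _, hm⟩ := hb σ hσ
  have h1 : ∑ ρ, (b ρ : ℝ) * F.hh x ρ =
      ∑ᶠ v : Place k, mult v * ∑ ρ, (b ρ : ℝ) * F.lam (absAt v) x ρ := by
    have h1 : ∀ v : Place k, mult v * ∑ ρ, (b ρ : ℝ) * F.lam (absAt v) x ρ =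
        ∑ ρ, (b ρ : ℝ) * (mult v * F.lam (absAt v) x ρ) := by
      intro v
      rw [Finset.mul_sum]
      exact Finset.sum_congr rfl fun ρ _ => by ring
    simp only [h1]
    rw [finsum_sum_comm]
    · refine Finset.sum_congr rfl fun ρ _ => ?_
      rw [← mul_finsum]
      rfl
    · intro ρ _
      refine (F.supp_lam hx ρ).subset fun v hv => ?_
      rw [Function.mem_support] at hv ⊢
      intro h
      exact hv (by rw [h, mul_zero])
  -- the sum of a linear function over all places
  have h2 : ∑ᶠ v : Place k, mult v * -∑ i, (m i : ℝ) *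
      ∑ τ, -Real.log (absAt v (x τ)) * (F.u τ i : ℝ) = 0 := by
    have h3 : ∀ v : Place k, mult v * -∑ i, (m i : ℝ) *
        ∑ τ, -Real.log (absAt v (x τ)) * (F.u τ i : ℝ) =
        ∑ τ, (F.pair m τ : ℝ) * (mult v * Real.log (absAt v (x τ))) := by
      intro v
      unfold pair
      push_cast
      simp only [Finset.mul_sum, Finset.sum_mul, ← Finset.sum_neg_distrib]
      rw [Finset.sum_comm]
      exact Finset.sum_congr rfl fun τ _ => Finset.sum_congr rfl fun i _ => by ring
    simp only [h3]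
    rw [finsum_sum_comm]
    · refine Finset.sum_eq_zero fun τ _ => ?_
      rw [← mul_finsum, prodf (hx τ), mul_zero]
    · intro τ _
      refine (supp_log (hx τ)).subset fun v hv => ?_
      rw [Function.mem_support] at hv ⊢
      intro h
      exact hv (by rw [h, mul_zero])
  rw [h1, ← h2]
  have hsupp := supp_union hx
  refine finsum_le_finsum' ?_ ?_ fun v => ?_
  · refine hsupp.subset fun v hv => ?_
    by_contra h
    rw [Function.mem_support] at hv
    apply hv
    have h4 : ∀ τ, Real.log (absAt v (x τ)) = 0 := by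
      intro τ
      rw [Set.mem_iUnion] at h
      push Not at h
      have h5 := h τ
      rw [Function.mem_support, not_not] at h5
      exact (mul_eq_zero.1 h5).resolve_left (mult_pos v).ne'
    simp [h4]
  · refine hsupp.subset fun v hv => ?_
    by_contra h
    rw [Function.mem_support] at hv
    apply hv
    have h4 := F.lam_eq_zero h
    simp [h4]
  · exact mul_le_mul_of_nonneg_left (IsNef.le m hm _) (mult_nonneg v)

/-- the anticanonical height is bounded by a multiple of the height of an ample divisor -/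
theorem IsAmple.height_bound {A : Fin N → ℤ} (hA : F.IsAmple A) : ∃ n : ℕ, 0 < n ∧
    ∀ (k : Type) [Field k] [NumberField k] (x : Fin N → k), (∀ ρ, x ρ ≠ 0) →
      ∑ ρ, F.hh x ρ ≤ n * ∑ ρ, (A ρ : ℝ) * F.hh x ρ := by
  obtain ⟨n0, hn0⟩ := hA.nef_add (fun _ => -1)
  refine ⟨n0 + 1, Nat.succ_pos _, fun k _ _ x hx => ?_⟩
  have h := (hn0 (n0 + 1) (Nat.le_succ _)).height_nonneg hx
  have h1 : ∀ ρ, ((((((n0 + 1 : ℕ) : ℤ) • A + fun _ => (-1 : ℤ)) : Fin N → ℤ) ρ : ℤ) : ℝ) * F.hh x ρ =
      ((n0 + 1 : ℕ) : ℝ) * ((A ρ : ℝ) * F.hh x ρ) - F.hh x ρ := by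
    intro ρ
    rw [Pi.add_apply, Pi.smul_apply, smul_eq_mul]
    push_cast
    ring
  simp only [h1, Finset.sum_sub_distrib, ← Finset.mul_sum] at h
  linarith

end Pool.Agent.H9.TV.Fan
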