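import Pool.Agent.H9.TV.Form

/-!
The local estimate for ideals generated by products of Cox linear forms.
-/

set_option autoImplicit false

namespace Pool.Agent.H9.TV.Fan

open Finset MvPolynomial Pool.Agent.R405
open Pool.Agent.W180.OP (cs cs_nonneg)

variable {d N : ℕ} {F : Fan d N} {k K : Type} [Field k] [Field K] [Algebra k K]

/-- the matrix respects the degrees -/
def Blk (F : Fan d N) (B : Matrix (Fin N) (Fin N) K) : Prop :=
  ∀ i j, B i j ≠ 0 → F.LinEq (Pi.single j 1) (Pi.single i 1)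

theorem Blk.bound {B : Matrix (Fin N) (Fin N) K} (hB : F.Blk B) (f : AbsoluteValue K ℝ) :
    ∀ x : Fin N → K, (∀ i, B.mulVec x i ≠ 0) → ∀ i, ∃ τ,
      F.LinEq (Pi.single τ 1) (Pi.single i 1) ∧
      f (B.mulVec x i) ≤ (1 + ∑ i, ∑ j, f (B i j)) * f (x τ) := by
  classical
  intro x hx i
  have hne : (Finset.univ.filter fun τ => B i τ ≠ 0).Nonempty := by
    by_contra h
    rw [Finset.not_nonempty_iff_eq_empty, Finset.filter_eq_empty_iff] at h
    apply hx i
    rw [Matrix.mulVec, dotProduct]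
    refine Finset.sum_eq_zero fun τ hτ => ?_
    have := h hτ
    rw [not_not] at this
    rw [this, zero_mul]
  obtain ⟨τ, hτ, hmax⟩ := Finset.exists_max_image _ (fun τ => f (x τ)) hne
  refine ⟨τ, hB i τ (Finset.mem_filter.1 hτ).2, ?_⟩
  have h1 : f (B.mulVec x i) ≤ ∑ j, f (B i j) * f (x τ) := by
    rw [Matrix.mulVec, dotProduct]
    refine (f.sum_le _ _).trans (Finset.sum_le_sum fun j _ => ?_)
    rw [map_mul]
    by_cases h : B i j = 0
    · rw [h, map_zero, zero_mul, zero_mul]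
    · exact mul_le_mul_of_nonneg_left (hmax j (Finset.mem_filter.2 ⟨Finset.mem_univ _, h⟩))
        (f.nonneg _)
  rw [← Finset.sum_mul] at h1
  refine h1.trans (mul_le_mul_of_nonneg_right ?_ (f.nonneg _))
  have h2 : ∑ j, f (B i j) ≤ ∑ i, ∑ j, f (B i j) :=
    Finset.single_le_sum (f := fun i => ∑ j, f (B i j))
      (fun _ _ => Finset.sum_nonneg fun _ _ => f.nonneg _) (Finset.mem_univ i)
  linarith

/-- the value of a form is bounded by the monomial valuation -/
theorem IsForm.abv {e : Fin N → ℤ} {P : MvPolynomial (Fin N) K} (hP : F.IsForm e P)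
    (f : AbsoluteValue K ℝ) (y : Fin N → K) (hy : ∀ i, y i ≠ 0) (ρ : Fin N → NNReal)
    (hρ : ∀ i, (ρ i : ℝ) = Real.exp (-F.lam f y i)) :
    f (eval y P) * Real.exp (F.td f y e) ≤ cs f P * mW ρ P := by
  classical
  rw [MvPolynomial.eval_eq, cs, Finset.sum_mul]
  refine (mul_le_mul_of_nonneg_right (f.sum_le _ _) (Real.exp_nonneg _)).trans ?_
  rw [Finset.sum_mul]
  refine Finset.sum_le_sum fun m hm => ?_
  have hm' := MvPolynomial.mem_support_iff.1 hm
  rw [map_mul, mul_assoc]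
  refine mul_le_mul_of_nonneg_left ?_ (f.nonneg _)
  have h3 : f (∏ i ∈ m.support, y i ^ m i) * Real.exp (F.td f y e) = (mw ρ m : ℝ) := by
    have h4 : ∏ i ∈ m.support, y i ^ m i = ∏ i, y i ^ m i := by
      refine Finset.prod_subset (Finset.subset_univ _) fun i _ hi => ?_
      rw [Finsupp.notMem_support_iff.1 hi, pow_zero]
    have h5 : f (∏ i, y i ^ m i) = Real.exp (-∑ i, (m i : ℝ) * -Real.log (f (y i))) := by
      rw [← Finset.sum_neg_distrib, Real.exp_sum, map_prod]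
      refine Finset.prod_congr rfl fun i _ => ?_
      rw [map_pow]
      have h6 := f.pos_iff.2 (hy i)
      rw [show -((m i : ℝ) * -Real.log (f (y i))) = m i * Real.log (f (y i)) by ring,
        ← Real.log_pow, Real.exp_log (pow_pos h6 _)]
    have h6 := sum_log (F := F) f y (fun i => (m i : ℤ))
    have h7 := td_lin f y (hP m hm')
    have h8 : (mw ρ m : ℝ) = Real.exp (-∑ i, (m i : ℝ) * F.lam f y i) := by
      rw [← Finset.sum_neg_distrib, Real.exp_sum]
      unfold mw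
      push_cast
      refine Finset.prod_congr rfl fun i _ => ?_
      rw [hρ, ← Real.exp_nat_mul]
      congr 1
      ring
    rw [h4, h5, ← Real.exp_add, h8]
    congr 1
    push_cast at h6
    rw [h6, ← h7]
    ring
  rw [h3]
  exact_mod_cast le_mW ρ hm'

theorem td_abs (f : AbsoluteValue K ℝ) (x y : Fin N → K) (e : Fin N → ℤ) (D : ℝ)
    (h : ∀ ρ, |F.tt f x ρ - F.tt f y ρ| ≤ D) :
    |F.td f x e - F.td f y e| ≤ (∑ ρ, |(e ρ : ℝ)|) * D := by
  unfold td
  rw [← Finset.sum_sub_distrib, Finset.sum_mul]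
  refine (Finset.abs_sum_le_sum_abs _ _).trans (Finset.sum_le_sum fun ρ _ => ?_)
  rw [← mul_sub, abs_mul]
  exact mul_le_mul_of_nonneg_left (h ρ) (abs_nonneg _)

/-- the monomial valuations in linear coordinates are places -/
theorem isPlace_mon {A : Fin N → ℤ} (hA : F.IsAmple A) (B B' : Matrix (Fin N) (Fin N) K)
    (hBB : F.Blk B) (hB : B * B' = 1) (hB2 : B' * B = 1) (ρ : Fin N → NNReal)
    (hρ : ∀ i, 0 < ρ i) (hρ1 : ∀ i, ρ i ≤ 1) (hcone : ∃ σ ∈ F.cones, ∀ i, i ∉ σ → ρ i = 1) :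
    F.IsPlace ((mV (K := K) ρ hρ).comap (sub k B')) := by
  classical
  set w := (mV (K := K) ρ hρ).comap (sub k B') with hw
  have hwv : ∀ P, w P = mW ρ (Pool.Agent.R405.sub k B' P) := fun P => rfl
  have hX1 : ∀ i, w (X i) ≤ 1 := fun i => by
    rw [hwv, sub_X]
    exact mW_lff_le ρ _ fun i' _ => hρ1 i'
  refine ⟨fun t ht => ?_, hX1, ?_, fun P hP => ?_⟩
  · rw [hwv, sub_C]
    exact mW_C ρ (by rwa [Ne, map_eq_zero])
  · obtain ⟨σ, hσ, hσ1⟩ := hcone
    obtain ⟨m, hm1, hm2⟩ := hA σ hσ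
    have hex : ∀ i, ∃ τ, F.LinEq (Pi.single τ 1) (Pi.single i 1) ∧ ρ i ≤ w (X τ) := by
      intro i
      obtain ⟨τ, hτ⟩ : ∃ τ, B i τ * B' τ i ≠ 0 := by
        by_contra hcon
        push Not at hcon
        have h1 : (B * B') i i = 0 := by
          rw [Matrix.mul_apply]
          exact Finset.sum_eq_zero fun j _ => hcon j
        rw [hB, Matrix.one_apply_eq] at h1
        exact one_ne_zero h1
      refine ⟨τ, hBB i τ (left_ne_zero_of_mul hτ), ?_⟩
      rw [hwv, sub_X]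
      exact le_mW_lff ρ _ (right_ne_zero_of_mul hτ)
    choose τ hτ hτ' using hex
    set E : Fin N → ℤ := fun i => A i + F.pair m i with hE
    have hE0 : ∀ i, 0 ≤ E i := fun i => by
      by_cases hi : i ∈ σ
      · have := hm1 i hi
        simp only [hE]
        linarith
      · have := hm2 i hi
        simp only [hE]
        linarith
    have hEσ : ∀ i ∈ σ, E i = 0 := fun i hi => by
      have := hm1 i hi
      simp only [hE]
      linarith
    have hEA : F.LinEq E A := ⟨m, fun _ => rfl⟩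
    set E' : Fin N → ℤ := ∑ i, E i • Pi.single (τ i) 1 with hE'
    have hE'A : F.LinEq E' A := by
      refine LinEq.trans ?_ hEA
      have h1 : E = ∑ i, E i • (Pi.single i 1 : Fin N → ℤ) := by
        funext ρ'
        rw [Finset.sum_apply, Finset.sum_eq_single ρ']
        · simp
        · intro τ _ hτ
          rw [Pi.smul_apply, Pi.single_eq_of_ne (Ne.symm hτ), smul_zero]
        · intro h
          exact absurd (Finset.mem_univ _) h
      rw [h1]
      have h2 : ∀ i, (∑ i, E i • (Pi.single i 1 : Fin N → ℤ)) i = E i := fun i => by rw [← h1]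
      exact LinEq.sum _ fun i _ => (hτ i).smul (E i)
    have hE'0 : ∀ ρ', 0 ≤ E' ρ' := by
      intro ρ'
      rw [hE', Finset.sum_apply]
      refine Finset.sum_nonneg fun i _ => ?_
      rw [Pi.smul_apply, smul_eq_mul, Pi.single_apply]
      split_ifs
      · rw [mul_one]; exact hE0 i
      · rw [mul_zero]
    obtain ⟨σ', hσ', h⟩ := hA.face E' hE'0 hE'A
    refine ⟨σ', hσ', fun ρ' hρ' => le_antisymm (hX1 ρ') ?_⟩
    have h1 := h ρ' hρ'
    rw [hE', Finset.sum_apply] at h1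
    obtain ⟨i, _, hi⟩ := Finset.exists_ne_zero_of_sum_ne_zero h1
    rw [Pi.smul_apply, smul_eq_mul, Pi.single_apply] at hi
    have h2 : ρ' = τ i := by
      by_contra h3
      rw [if_neg h3, mul_zero] at hi
      exact hi rfl
    have h3 : i ∉ σ := fun h4 => by
      rw [hEσ i h4, zero_mul] at hi
      exact hi rfl
    rw [h2, ← hσ1 i h3]
    exact hτ' i
  · rw [hwv]
    exact (mW_pos hρ (fun h => hP (sub_injective B B' hB2 (by rw [h, map_zero])))).ne'

/-- the value of a Cox linear form -/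
theorem lin_value {B' : Matrix (Fin N) (Fin N) K} (hBB' : F.Blk B') (f : AbsoluteValue K ℝ)
    (L : Fin N → K) (hL : F.IsCoxLinear L) {τ : Fin N} (hτ : L τ ≠ 0) (y : Fin N → K)
    (hy : ∀ i, y i ≠ 0) (ρ : Fin N → NNReal) (hρ : ∀ i, (ρ i : ℝ) = Real.exp (-F.lam f y i))
    (v : K) (hv : ∀ i, Matrix.vecMul L B' i ≠ 0 → f (y i) ≤ f v) :
    (mW ρ (lff (Matrix.vecMul L B')) : ℝ) ≤ f v * Real.exp (F.tt f y τ) := by
  classical
  obtain ⟨t, ht⟩ : ∃ t : NNReal, (t : ℝ) = f v * Real.exp (F.tt f y τ) :=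
    ⟨⟨_, mul_nonneg (f.nonneg _) (Real.exp_nonneg _)⟩, rfl⟩
  rw [← ht, NNReal.coe_le_coe]
  refine mW_lff_le ρ _ fun i hi => ?_
  rw [← NNReal.coe_le_coe, hρ, ht]
  have h1 : ∃ τ', L τ' ≠ 0 ∧ B' τ' i ≠ 0 := by
    by_contra hcon
    push Not at hcon
    apply hi
    rw [Matrix.vecMul, dotProduct]
    refine Finset.sum_eq_zero fun τ' _ => ?_
    by_cases h : L τ' = 0
    · rw [h, zero_mul]
    · rw [hcon τ' h, mul_zero]
  obtain ⟨τ', h2, h3⟩ := h1
  have h4 : F.tt f y i = F.tt f y τ := tt_eq ((hBB' τ' i h3).trans (hL.2 τ' τ h2 hτ))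
  have h5 := f.pos_iff.2 (hy i)
  have h6 : Real.exp (-F.lam f y i) = f (y i) * Real.exp (F.tt f y τ) := by
    rw [← h4]
    unfold tt
    rw [Real.exp_sub, Real.exp_neg, Real.exp_neg, Real.exp_log h5]
    field_simp
  rw [h6]
  exact mul_le_mul_of_nonneg_right (hv i hi) (Real.exp_nonneg _)

theorem logB0_of {w : Valuation (MvPolynomial (Fin N) k) NNReal} {r : NNReal}
    (h : F.CanonicalNormLE w r) : LogB0 w r := by
  obtain ⟨T, e, q, h, p, _, hq, hh, hp, hid⟩ := h
  exact ⟨T, q, h, p, hq, fun s => (hh s).2, fun s j => (hp s j).2, hid⟩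

/-- the local estimate -/
theorem localIneq {A : Fin N → ℤ} (hA : F.IsAmple A) (f : AbsoluteValue K ℝ)
    (B B' : Matrix (Fin N) (Fin N) K) (hBB : F.Blk B) (hBB' : F.Blk B')
    (hB : B * B' = 1) (hB2 : B' * B = 1) {ι : Type} (Lf : ι → Fin N → K)
    (hLf : ∀ l, F.IsCoxLinear (Lf l)) {a : ℕ} (Fs : Fin a → MvPolynomial (Fin N) k)
    (c : Fin a → K) (s : Fin a → ℕ) (σ : ∀ j, Fin (s j) → ι)
    (hfac : ∀ j, map (algebraMap k K) (Fs j) = C (c j) * ∏ t, lff (Lf (σ j t)))
    (e : Fin a → Fin N → ℤ) (hFe : ∀ j, F.IsForm (e j) (Fs j))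
    (u : MvPolynomial (Fin N) k) (eu : Fin N → ℤ) (hu : F.IsForm eu u)
    (hm : F.InMultiplierIdeal Fs u) :
    ∃ C : ℝ, 0 ≤ C ∧ ∀ x : Fin N → K, (∀ i, x i ≠ 0) → (∀ i, B.mulVec x i ≠ 0) →
      (∀ l i, Matrix.vecMul (Lf l) B' i ≠ 0 → f (B.mulVec x i) ≤ f (∑ j, Lf l j * x j)) →
      aeval x u ≠ 0 → 0 < ⨆ j, f (aeval x (Fs j)) * Real.exp (F.td f x (e j)) →
      -Real.log (⨆ j, f (aeval x (Fs j)) * Real.exp (F.td f x (e j))) ≤
        -Real.log (f (aeval x u) * Real.exp (F.td f x eu)) +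
        ∑ i, (-Real.log (f (B.mulVec x i)) - F.tt f x i) + C := by
  classical
  obtain ⟨D, hD⟩ := hA.compare
  set κ : ℝ := (1 + ∑ i, ∑ j, f (B i j)) + (1 + ∑ i, ∑ j, f (B' i j)) with hκ
  have hb0 : 0 ≤ ∑ i, ∑ j, f (B i j) :=
    Finset.sum_nonneg fun _ _ => Finset.sum_nonneg fun _ _ => f.nonneg _
  have hb0' : 0 ≤ ∑ i, ∑ j, f (B' i j) :=
    Finset.sum_nonneg fun _ _ => Finset.sum_nonneg fun _ _ => f.nonneg _
  have hκ1 : 1 ≤ κ := by linarith
  set D0 : ℝ := D * Real.log κ with hD0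
  have hD00 : 0 ≤ D0 := mul_nonneg (Nat.cast_nonneg _) (Real.log_nonneg hκ1)
  set W : (Fin N → ℤ) → ℝ := fun g => (∑ ρ, |(g ρ : ℝ)|) * D0 with hW
  have hW0 : ∀ g, 0 ≤ W g := fun g => mul_nonneg (Finset.sum_nonneg fun _ _ => abs_nonneg _) hD00
  set M : ℝ := 1 + ∑ j, (f (c j))⁻¹ * Real.exp (W (e j)) with hM
  have hMj0 : ∀ j, 0 ≤ (f (c j))⁻¹ * Real.exp (W (e j)) := fun j =>
    mul_nonneg (inv_nonneg.2 (f.nonneg _)) (Real.exp_nonneg _)
  have hM1 : 1 ≤ M := by
    have : 0 ≤ ∑ j, (f (c j))⁻¹ * Real.exp (W (e j)) := Finset.sum_nonneg fun j _ => hMj0 j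
    linarith
  set cu : ℝ := cs f (Pool.Agent.R405.sub k B' u) with hcu
  refine ⟨|Real.log cu| + |Real.log M| + W eu + N * D0, by
    have := hW0 eu
    positivity, fun x hx hy0 hgr hux hs => ?_⟩
  set y := B.mulVec x with hy
  have hyx : B'.mulVec y = x := by
    rw [hy, Matrix.mulVec_mulVec, hB2, Matrix.one_mulVec]
  -- the normalisations
  have hcmp : ∀ ρ, |F.tt f x ρ - F.tt f y ρ| ≤ D0 := by
    refine hD K f κ hκ1 x y hx hy0 (fun i => ?_) (fun i => ?_)
    · obtain ⟨τ, h1, h2⟩ := hBB.bound f x hy0 i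
      refine ⟨τ, h1, h2.trans (mul_le_mul_of_nonneg_right ?_ (f.nonneg _))⟩
      linarith
    · obtain ⟨τ, h1, h2⟩ := hBB'.bound f y (by rw [hyx]; exact hx) i
      rw [hyx] at h2
      refine ⟨τ, h1, h2.trans (mul_le_mul_of_nonneg_right ?_ (f.nonneg _))⟩
      linarith
  have htd : ∀ g : Fin N → ℤ, |F.td f x g - F.td f y g| ≤ W g := fun g =>
    td_abs f x y g D0 hcmp
  set ρ : Fin N → NNReal := fun i => ⟨Real.exp (-F.lam f y i), Real.exp_nonneg _⟩ with hρdef
  have hρv : ∀ i, (ρ i : ℝ) = Real.exp (-F.lam f y i) := fun i => rfl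
  have hρ : ∀ i, 0 < ρ i := fun i => by
    rw [← NNReal.coe_pos, hρv]
    exact Real.exp_pos _
  have hρ1 : ∀ i, ρ i ≤ 1 := fun i => by
    rw [← NNReal.coe_le_coe, hρv, NNReal.coe_one, Real.exp_le_one_iff, Left.neg_nonpos_iff]
    exact F.lam_nonneg f y i
  have hcone : ∃ σ ∈ F.cones, ∀ i, i ∉ σ → ρ i = 1 := by
    obtain ⟨σ, hσ, h⟩ := F.lam_cone f y
    refine ⟨σ, hσ, fun i hi => ?_⟩
    rw [← NNReal.coe_inj, hρv, h i hi, neg_zero, Real.exp_zero, NNReal.coe_one]
  have hplace := isPlace_mon (k := k) hA B B' hBB hB hB2 ρ hρ hρ1 hcone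
  set w := (mV (K := K) ρ hρ).comap (Pool.Agent.R405.sub k B') with hw
  have hwv : ∀ P, w P = mW ρ (Pool.Agent.R405.sub k B' P) := fun P => rfl
  obtain ⟨r, hr, hle⟩ := hm w hplace
  have hρr : ∏ i, ρ i ≤ r := le_of_forall_gt_imp_ge_of_dense fun r' hr' =>
    tor_disc0 hρ B B' hB hB2 r' (logB0_of (hr r' hr'))
  set S : ℝ := ⨆ j, f (aeval x (Fs j)) * Real.exp (F.td f x (e j)) with hS
  -- the values of the generators
  have hval : ∀ j, (w (Fs j) : ℝ) ≤ (f (c j))⁻¹ * Real.exp (W (e j)) *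
      (f (aeval x (Fs j)) * Real.exp (F.td f x (e j))) := by
    intro j
    have h1 : Pool.Agent.R405.sub k B' (Fs j) =
        C (c j) * ∏ t, lff (Matrix.vecMul (Lf (σ j t)) B') := by
      rw [sub_map, hfac, map_mul, sub_C, map_prod]
      congr 1
      exact Finset.prod_congr rfl fun t _ => sub_lff B' _
    have h2 : aeval x (Fs j) = c j * ∏ t, ∑ i, Lf (σ j t) i * x i := by
      have h3 : aeval x (Fs j) = eval x (map (algebraMap k K) (Fs j)) := by
        rw [eval_map, aeval_def]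
      rw [h3, hfac, map_mul, eval_C, map_prod]
      congr 1
      exact Finset.prod_congr rfl fun t _ => eval_lff _ _
    by_cases hcj : c j = 0
    · have h3 : w (Fs j) = 0 := by
        rw [hwv, h1, hcj, C_0, zero_mul, mW_zero]
      rw [h3, NNReal.coe_zero]
      exact mul_nonneg (hMj0 j) (mul_nonneg (f.nonneg _) (Real.exp_nonneg _))
    · -- representatives
      have hrep : ∀ l, ∃ τ, Lf l τ ≠ 0 := fun l => Function.ne_iff.1 (hLf l).1
      choose τ hτ using hrep
      have h3 : w (Fs j) = ∏ t, mW ρ (lff (Matrix.vecMul (Lf (σ j t)) B')) := by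
        rw [hwv, h1, mW_mul hρ, mW_C ρ hcj, one_mul, ← mV_apply ρ hρ, map_prod]
        rfl
      have h4 : (w (Fs j) : ℝ) ≤ ∏ t, (f (∑ i, Lf (σ j t) i * x i) *
          Real.exp (F.tt f y (τ (σ j t)))) := by
        rw [h3]
        push_cast
        refine Finset.prod_le_prod (fun t _ => NNReal.coe_nonneg _) fun t _ => ?_
        exact lin_value hBB' f _ (hLf _) (hτ _) y hy0 ρ hρv _ fun i hi => hgr _ i hi
      -- the degree
      have hdeg : F.LinEq (∑ t, (Pi.single (τ (σ j t)) 1 : Fin N → ℤ)) (e j) := by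
        have hne : Fs j ≠ 0 := by
          intro h0
          have h5 := hfac j
          rw [h0, map_zero] at h5
          rcases mul_eq_zero.1 h5.symm with h6 | h6
          · exact hcj (C_eq_zero.1 h6)
          · obtain ⟨t, _, ht⟩ := Finset.prod_eq_zero_iff.1 h6
            have h7 := coeff_lff (Lf (σ j t)) (τ (σ j t))
            rw [ht, coeff_zero] at h7
            exact hτ _ h7.symm
        obtain ⟨m, hm⟩ := MvPolynomial.ne_zero_iff.1 hne
        have h5 : coeff m (map (algebraMap k K) (Fs j)) ≠ 0 := by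
          rw [coeff_map, Ne, map_eq_zero]
          exact hm
        rw [hfac] at h5
        have h6 : F.IsForm (∑ t, (Pi.single (τ (σ j t)) 1 : Fin N → ℤ))
            (C (c j) * ∏ t, lff (Lf (σ j t))) :=
          IsForm.C_mul _ (IsForm.prod _ fun t _ =>
            isForm_lff fun i hi => (hLf _).2 i _ hi (hτ _))
        exact (h6 m h5).symm.trans (hFe j m hm)
      have h5 : ∏ t, (f (∑ i, Lf (σ j t) i * x i) * Real.exp (F.tt f y (τ (σ j t)))) =
          f (∏ t, ∑ i, Lf (σ j t) i * x i) * Real.exp (F.td f y (e j)) := by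
        rw [Finset.prod_mul_distrib, map_prod, ← Real.exp_sum, ← td_lin f y hdeg, td_sum]
        simp only [td_single]
      rw [h5] at h4
      have h6 : Real.exp (F.td f y (e j)) ≤ Real.exp (W (e j)) * Real.exp (F.td f x (e j)) := by
        rw [← Real.exp_add, Real.exp_le_exp]
        have := neg_le_of_abs_le (htd (e j))
        linarith
      have hcj' := f.pos_iff.2 hcj
      rw [h2, map_mul]
      calc (w (Fs j) : ℝ) ≤ f (∏ t, ∑ i, Lf (σ j t) i * x i) * Real.exp (F.td f y (e j)) := h4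
        _ ≤ f (∏ t, ∑ i, Lf (σ j t) i * x i) *
            (Real.exp (W (e j)) * Real.exp (F.td f x (e j))) :=
          mul_le_mul_of_nonneg_left h6 (f.nonneg _)
        _ = _ := by
          field_simp
  have hbdd : BddAbove (Set.range fun j => f (aeval x (Fs j)) * Real.exp (F.td f x (e j))) :=
    (Set.finite_range _).bddAbove
  have hsup : ((⨆ j, w (Fs j) : NNReal) : ℝ) ≤ M * S := by
    rw [NNReal.coe_iSup]
    rcases Nat.eq_zero_or_pos a with rfl | ha
    · rw [hS, Real.iSup_of_isEmpty] at hs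
      exact absurd hs (lt_irrefl _)
    · have : Nonempty (Fin a) := ⟨⟨0, ha⟩⟩
      refine ciSup_le fun j => ?_
      have h1 : f (aeval x (Fs j)) * Real.exp (F.td f x (e j)) ≤ S := le_ciSup hbdd j
      have h2 : (f (c j))⁻¹ * Real.exp (W (e j)) ≤ M := by
        have h3 : (f (c j))⁻¹ * Real.exp (W (e j)) ≤ ∑ j, (f (c j))⁻¹ * Real.exp (W (e j)) :=
          Finset.single_le_sum (f := fun j => (f (c j))⁻¹ * Real.exp (W (e j)))
            (fun j _ => hMj0 j) (Finset.mem_univ j)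
        linarith
      exact (hval j).trans (mul_le_mul h2 h1
        (mul_nonneg (f.nonneg _) (Real.exp_nonneg _)) (by linarith))
  have hkey : (w u : ℝ) * ∏ i, Real.exp (-F.lam f y i) ≤ M * S := by
    have h1 : w u * ∏ i, ρ i ≤ ⨆ j, w (Fs j) := (mul_le_mul' le_rfl hρr).trans hle
    have h2 : ((w u * ∏ i, ρ i : NNReal) : ℝ) ≤ ((⨆ j, w (Fs j) : NNReal) : ℝ) :=
      NNReal.coe_le_coe.2 h1
    have h3 : ((w u * ∏ i, ρ i : NNReal) : ℝ) = (w u : ℝ) * ∏ i, Real.exp (-F.lam f y i) := by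
      rw [NNReal.coe_mul, NNReal.coe_prod]
      rfl
    rw [h3] at h2
    exact h2.trans hsup
  -- the form `u`
  have hue : aeval x u = eval y (Pool.Agent.R405.sub k B' u) := (eval_sub B B' hB2 u x).symm
  have habs : f (aeval x u) * Real.exp (F.td f y eu) ≤ cu * (w u : ℝ) := by
    rw [hue]
    exact (hu.sub hBB').abv f y hy0 ρ hρv
  have hfu := f.pos_iff.2 hux
  have hwu0 : 0 ≤ (w u : ℝ) := NNReal.coe_nonneg _
  have hcu0 : 0 < cu := by
    by_contra h
    have h1 : cu * (w u : ℝ) ≤ 0 := mul_nonpos_of_nonpos_of_nonneg (not_lt.1 h) hwu0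
    have h2 : 0 < f (aeval x u) * Real.exp (F.td f y eu) := mul_pos hfu (Real.exp_pos _)
    linarith
  have hprodpos : 0 < ∏ i, Real.exp (-F.lam f y i) := Finset.prod_pos fun i _ => Real.exp_pos _
  have hM0 : 0 < M := by linarith
  have hfin : f (aeval x u) * Real.exp (F.td f y eu) * ∏ i, Real.exp (-F.lam f y i) ≤
      cu * (M * S) := by
    calc f (aeval x u) * Real.exp (F.td f y eu) * ∏ i, Real.exp (-F.lam f y i) ≤
        (cu * (w u : ℝ)) * ∏ i, Real.exp (-F.lam f y i) :=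
          mul_le_mul_of_nonneg_right habs hprodpos.le
      _ = cu * ((w u : ℝ) * ∏ i, Real.exp (-F.lam f y i)) := by ring
      _ ≤ _ := mul_le_mul_of_nonneg_left hkey hcu0.le
  have hlog := Real.log_le_log (mul_pos (mul_pos hfu (Real.exp_pos _)) hprodpos) hfin
  rw [Real.log_mul (mul_pos hfu (Real.exp_pos _)).ne' hprodpos.ne',
    Real.log_mul hfu.ne' (Real.exp_pos _).ne', Real.log_exp, ← Real.exp_sum, Real.log_exp,
    Real.log_mul hcu0.ne' (mul_pos hM0 hs).ne', Real.log_mul hM0.ne' hs.ne'] at hlog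
  rw [Real.log_mul hfu.ne' (Real.exp_pos _).ne', Real.log_exp]
  have h1 := le_of_abs_le (htd eu)
  have h2 : ∑ i, F.lam f y i ≤ ∑ i, (-Real.log (f (y i)) - F.tt f x i) + N * D0 := by
    have h3 : (N : ℝ) * D0 = ∑ i : Fin N, D0 := by
      rw [Finset.sum_const, Finset.card_univ, Fintype.card_fin, nsmul_eq_mul]
    rw [h3, ← Finset.sum_add_distrib]
    refine Finset.sum_le_sum fun i _ => ?_
    have h4 := le_of_abs_le (hcmp i)
    have h5 : F.tt f y i = -Real.log (f (y i)) - F.lam f y i := rfl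
    linarith
  rw [Finset.sum_neg_distrib] at hlog
  have habs1 := le_abs_self (Real.log cu)
  have habs2 := le_abs_self (Real.log M)
  linarith

end Pool.Agent.H9.TV.Fan
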