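import Pool.Agent.H9.TV.Blocks
import Pool.Agent.H9.TV.Hts
import Pool.Agent.H9.Lib.R_seed8.R405.Big

/-!
The main inequality on smooth projective toric varieties.
-/

set_option autoImplicit false

namespace Pool.Agent.H9.TV.Fan

open Finset MvPolynomial Pool.Agent.R405 NumberField IsDedekindDomain Height
open Pool.Agent.W180.OP (Pl av wt nrm le_nrm nrm_pos wt_nonneg)

variable {d N : ℕ} {k : Type} [Field k] [NumberField k]

theorem absAt_eq (v : Pl k) : absAt v = av v := by
  rcases v with w | p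
  · rfl
  · rfl

theorem mult_eq' (v : Pl k) : mult v = wt v := by
  rcases v with w | p
  · rfl
  · rfl

section ext

variable {F : Fan d N} {K : Type} [Field K] [NumberField K] [Algebra k K]

theorem lam_ext {v : Pl k} {f : AbsoluteValue K ℝ} (h : Good v f) (x : Fin N → k) (ρ : Fin N) :
    F.lam f (exv K x) ρ = F.lam (absAt v) x ρ := by
  unfold lam
  congr 1
  funext i
  refine Finset.sum_congr rfl fun τ _ => ?_
  have h1 : f (exv K x τ) = absAt v (x τ) := by
    rw [absAt_eq]
    exact h.ext (x τ)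
  rw [h1]

theorem tt_ext {v : Pl k} {f : AbsoluteValue K ℝ} (h : Good v f) (x : Fin N → k) (ρ : Fin N) :
    F.tt f (exv K x) ρ = F.tt (absAt v) x ρ := by
  unfold tt
  rw [lam_ext h]
  have h1 : f (exv K x ρ) = absAt v (x ρ) := by
    rw [absAt_eq]
    exact h.ext (x ρ)
  rw [h1]

theorem td_ext {v : Pl k} {f : AbsoluteValue K ℝ} (h : Good v f) (x : Fin N → k)
    (e : Fin N → ℤ) : F.td f (exv K x) e = F.td (absAt v) x e := by
  unfold td
  exact Finset.sum_congr rfl fun ρ _ => by rw [tt_ext h]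

theorem val_ext {v : Pl k} {f : AbsoluteValue K ℝ} (h : Good v f) (x : Fin N → k)
    (P : MvPolynomial (Fin N) k) : f (aeval (exv K x) P) = absAt v (eval x P) := by
  rw [aeval_exv, h.ext, absAt_eq]

end ext

/-- one block: the subspace theorem for the forms of one degree -/
theorem block (F : Fan d N) {K : Type} [Field K] [NumberField K] [Algebra k K] [IsGalois ℚ K]
    (hi : ∃ z : K, z ^ 2 = -1) {κ : Type} [Fintype κ] [DecidableEq κ] (H : κ → Fin N → K)
    (hH : ∀ l, F.IsCoxLinear (H l)) (c : F.Q) :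
    ∃ Z : Finset (Fin N → k), (∀ z ∈ Z, F.IsCoxLinear z) ∧
      ∀ (S : Finset (Pl k)) (f : Pl k → AbsoluteValue K ℝ), (∀ v ∈ S, Good v (f v)) →
      ∀ ε : ℝ, 0 < ε → ∃ C : ℝ, 0 ≤ C ∧ ∀ x : Fin N → k, (∀ ρ, x ρ ≠ 0) →
        (∀ z ∈ Z, ∑ j, z j * x j ≠ 0) → (∀ l, dot (H l) (exv K x) ≠ 0) →
        ∀ β : Pl k → Fin N → κ,
        (∀ v ∈ S, (Matrix.of fun a => H (β v a)).det ≠ 0 ∧ ∀ i, H (β v i) i ≠ 0) →
        ∑ v ∈ S, mult v * ∑ i : Fin (F.sz c),
          (-Real.log (f v (dot (H (β v (F.en c i))) (exv K x))) -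
            F.tt (absAt v) x (F.en c i)) ≤
          (F.sz c + ε) * F.hh x (F.en c (F.i0 c)) + C := by
  classical
  -- the class of a form
  choose τ hτ using fun l => Function.ne_iff.1 (hH l).1
  have hcl : ∀ l ρ, H l ρ ≠ 0 → F.cl ρ = F.cl (τ l) := fun l ρ hρ =>
    cl_eq.2 ((hH l).2 ρ (τ l) hρ (hτ l))
  set Hc : κ → Fin (F.sz c) → K := fun l i =>
    if F.cl (τ l) = c then H l (F.en c i) else if i = F.i0 c then 1 else 0 with hHc
  obtain ⟨Z, hZ, hmain⟩ := schV (k := k) (K := K) hi (F.sz_pos c) Hc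
  refine ⟨Z.image (F.extz c), fun z hz => ?_, fun S f hf ε hε => ?_⟩
  · obtain ⟨z', hz', rfl⟩ := Finset.mem_image.1 hz
    exact F.extz_cox c z' (hZ z' hz')
  obtain ⟨C, hC, hC'⟩ := hmain S f hf ε hε
  refine ⟨C, hC, fun x hx hZx hHx β hβ => ?_⟩
  set X : Fin (F.sz c) → k := fun i => x (F.en c i) with hX
  have hX0 : X ≠ 0 := fun h => hx _ (congrFun h (F.i0 c))
  -- the values of the forms of the block
  have hdot : ∀ l, F.cl (τ l) = c → dot (Hc l) (exv K X) = dot (H l) (exv K x) := by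
    intro l hl
    have h1 : dot (H l) (exv K x) = ∑ c' : F.Q, ∑ i : Fin (F.sz c'),
        H l (F.en c' i) * exv K x (F.en c' i) :=
      F.sum_blocks fun τ' => H l τ' * exv K x τ'
    rw [h1, Finset.sum_eq_single c]
    · unfold dot
      refine Finset.sum_congr rfl fun i _ => ?_
      rw [hHc]
      simp only [hl, if_true]
      rfl
    · intro c' _ hc'
      refine Finset.sum_eq_zero fun i _ => ?_
      by_cases h : H l (F.en c' i) = 0
      · rw [h, zero_mul]
      · exact absurd (((F.en c' i).2.symm.trans (hcl l _ h)).trans hl) hc'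
    · intro h
      exact absurd (Finset.mem_univ _) h
  have hnz : ∀ l, dot (Hc l) (exv K X) ≠ 0 := by
    intro l
    by_cases hl : F.cl (τ l) = c
    · rw [hdot l hl]
      exact hHx l
    · have h1 : dot (Hc l) (exv K X) = exv K X (F.i0 c) := by
        unfold dot
        rw [hHc]
        simp only [hl, if_false, ite_mul, one_mul, zero_mul]
        rw [Finset.sum_ite_eq', if_pos (Finset.mem_univ _)]
      rw [h1]
      show algebraMap k K (X (F.i0 c)) ≠ 0
      rw [Ne, map_eq_zero]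
      exact hx _
  have hZX : ∀ z ∈ Z, ∑ j, z j * X j ≠ 0 := by
    intro z hz
    have h1 := hZx _ (Finset.mem_image_of_mem _ hz)
    rw [F.extz_dot c z x] at h1
    exact h1
  -- the bases of the block
  have hcβ : ∀ v ∈ S, ∀ i, F.cl (τ (β v (F.en c i))) = c := by
    intro v hv i
    rw [← hcl _ _ ((hβ v hv).2 (F.en c i))]
    exact (F.en c i).2
  have hdet : ∀ v ∈ S, (Matrix.of fun a => Hc (β v (F.en c a))).det ≠ 0 := by
    intro v hv
    set A : Matrix (Fin N) (Fin N) K := Matrix.of fun a => H (β v a) with hA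
    have hu : IsUnit A.det := IsUnit.mk0 _ (hβ v hv).1
    have hAA : A * A⁻¹ = 1 := Matrix.mul_nonsing_inv _ hu
    set A' : Matrix (Fin (F.sz c)) (Fin (F.sz c)) K :=
      Matrix.of fun a b => A⁻¹ (F.en c a) (F.en c b) with hA'
    have h1 : (Matrix.of fun a => Hc (β v (F.en c a))) * A' = 1 := by
      ext a b
      rw [Matrix.mul_apply]
      have h2 : (A * A⁻¹) (F.en c a) (F.en c b) = (1 : Matrix (Fin (F.sz c)) (Fin (F.sz c)) K) a b := by
        rw [hAA, Matrix.one_apply, Matrix.one_apply]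
        congr 1
        rw [Subtype.coe_inj, (F.en c).apply_eq_iff_eq]
      rw [← h2, Matrix.mul_apply]
      have h3 := F.sum_blocks fun τ' => A (F.en c a) τ' * A⁻¹ τ' (F.en c b)
      rw [h3, Finset.sum_eq_single c]
      · refine Finset.sum_congr rfl fun i _ => ?_
        have h4 := hcβ v hv a
        simp only [hHc, hA', hA, Matrix.of_apply, h4, if_true]
      · intro c' _ hc'
        refine Finset.sum_eq_zero fun i _ => ?_
        by_cases h : A (F.en c a) (F.en c' i) = 0
        · rw [h, zero_mul]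
        · have h5 := hcl _ _ h
          rw [hcβ v hv a] at h5
          exact absurd ((F.en c' i).2.symm.trans h5) hc'
      · intro h
        exact absurd (Finset.mem_univ _) h
    intro h0
    have h2 := congrArg Matrix.det h1
    rw [Matrix.det_mul, h0, zero_mul, Matrix.det_one] at h2
    exact zero_ne_one h2
  have h1 := hC' X hX0 hZX hnz (fun v a => β v (F.en c a)) hdet
  -- the first coordinate of the block and the correction
  set ρ0 : Fin N := (F.en c (F.i0 c)).1 with hρ0
  have hsame : ∀ (v : Place k) (i : Fin (F.sz c)),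
      F.tt (absAt v) x (F.en c i) = F.tt (absAt v) x ρ0 := fun v i =>
    tt_eq (cl_eq.1 ((F.en c i).2.trans (F.en c (F.i0 c)).2.symm))
  have hlogH : logHeight X = ∑ᶠ v : Place k, mult v * Real.log (⨆ i, absAt v (X i)) :=
    logHeight_place (F.sz_pos c) X fun i => hx _
  have hmu0 : ∀ v : Place k, 0 ≤ mult v * (-F.tt (absAt v) x ρ0 -
      Real.log (⨆ i, absAt v (X i))) := by
    intro v
    refine mul_nonneg (mult_nonneg v) ?_
    obtain ⟨i, hi⟩ : ∃ i, absAt v (X i) = ⨆ i, absAt v (X i) := by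
      have : Nonempty (Fin (F.sz c)) := ⟨F.i0 c⟩
      exact exists_eq_ciSup_of_finite (f := fun i => absAt v (X i))
    rw [← hi, ← hsame v i]
    have h2 := F.lam_nonneg (absAt v) x (F.en c i)
    unfold tt
    rw [hX]
    linarith
  have hfs := supp_sup (k := k) (x := X) fun i => hx _
  have hmufin : (Function.support fun v : Place k => mult v * (-F.tt (absAt v) x ρ0 -
      Real.log (⨆ i, absAt v (X i)))).Finite := by
    refine ((F.supp_tt hx ρ0).union hfs).subset fun v hv => ?_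
    by_contra h
    rw [Set.mem_union, not_or, Function.mem_support, Function.mem_support, not_not,
      not_not] at h
    rw [Function.mem_support] at hv
    apply hv
    rw [mul_sub, h.1, h.2, sub_zero]
  have hmusum : ∑ᶠ v : Place k, mult v * (-F.tt (absAt v) x ρ0 -
      Real.log (⨆ i, absAt v (X i))) = F.hh x ρ0 - logHeight X := by
    rw [hlogH, ← F.finsum_tt hx ρ0, ← finsum_sub_distrib (F.supp_tt hx ρ0) hfs]
    exact finsum_congr fun v => by rw [mul_sub]
  have hmuS : ∑ v ∈ S, mult v * (-F.tt (absAt v) x ρ0 - Real.log (⨆ i, absAt v (X i))) ≤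
      F.hh x ρ0 - logHeight X := by
    rw [← hmusum, finsum_eq_sum_of_support_subset (s := hmufin.toFinset ∪ S) _ (by
      intro v hv
      simp only [Finset.coe_union, Set.Finite.coe_toFinset, Set.mem_union]
      exact Or.inl hv)]
    exact Finset.sum_le_sum_of_subset_of_nonneg Finset.subset_union_right fun v _ _ => hmu0 v
  -- rewrite the sum
  have hterm : ∀ v ∈ S, mult v * ∑ i : Fin (F.sz c),
      (-Real.log (f v (dot (H (β v (F.en c i))) (exv K x))) - F.tt (absAt v) x (F.en c i)) =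
      wt v * ∑ a, (Real.log (nrm (av v) X) -
        Real.log (f v (dot (Hc (β v (F.en c a))) (exv K X)))) +
      F.sz c * (mult v * (-F.tt (absAt v) x ρ0 - Real.log (⨆ i, absAt v (X i)))) := by
    intro v hv
    have h2 : ∀ a, dot (Hc (β v (F.en c a))) (exv K X) =
        dot (H (β v (F.en c a))) (exv K x) := fun a => hdot _ (hcβ v hv a)
    have h3 : nrm (av v) X = ⨆ i, absAt v (X i) := by
      rw [absAt_eq]
      rfl
    simp only [h2, h3, hsame, Finset.sum_sub_distrib, Finset.sum_neg_distrib, Finset.sum_const,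
      Finset.card_univ, Fintype.card_fin, nsmul_eq_mul, mult_eq']
    ring
  rw [Finset.sum_congr rfl hterm, Finset.sum_add_distrib, ← Finset.mul_sum]
  have hsz : (0 : ℝ) ≤ F.sz c := Nat.cast_nonneg _
  have h2 := mul_le_mul_of_nonneg_left hmuS hsz
  have h3 : 0 ≤ F.hh x ρ0 - logHeight X := by
    rw [← hmusum]
    exact finsum_nonneg hmu0
  have h4 : 0 ≤ ε * (F.hh x ρ0 - logHeight X) := mul_nonneg hε.le h3
  linarith

/-- the main inequality over a large field -/
theorem big (F : Fan d N) (hproj : ∃ A, F.IsAmple A) {K : Type} [Field K] [NumberField K]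
    [Algebra k K] [IsGalois ℚ K] (hi : ∃ z : K, z ^ 2 = -1) {ι : Type} [Fintype ι] [DecidableEq ι]
    (L : ι → Fin N → K) (hL : ∀ l, F.IsCoxLinear (L l)) :
    ∃ Z : Finset (Fin N → k), (∀ z ∈ Z, F.IsCoxLinear z) ∧ (∀ ρ, Pi.single ρ 1 ∈ Z) ∧
      ∀ (a : ℕ) (Fs : Fin a → MvPolynomial (Fin N) k) (e : Fin a → Fin N → ℤ)
        (c : Fin a → K) (s : Fin a → ℕ) (σ : ∀ j, Fin (s j) → ι),
      (∀ j, map (algebraMap k K) (Fs j) = C (c j) * ∏ t, lff (L (σ j t))) →
      (∀ j, F.IsForm (e j) (Fs j)) → (∃ j, Fs j ≠ 0) →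
      ∀ (b : ℕ) (us : Fin b → MvPolynomial (Fin N) k) (eu : Fin b → Fin N → ℤ),
      (∀ i, F.IsForm (eu i) (us i)) → (∀ i, F.InMultiplierIdeal Fs (us i)) →
      ∀ (S : Finset (Place k)) (ε : ℝ), 0 < ε → ∃ C : ℝ, ∀ x : Fin N → k,
        (∀ z ∈ Z, ∑ j, z j * x j ≠ 0) → (∃ i, eval x (us i) ≠ 0) →
        ∑ v ∈ S, mult v * (-Real.log (⨆ j, F.secNorm (absAt v) (e j) (Fs j) x)
          -(-Real.log (⨆ i, F.secNorm (absAt v) (eu i) (us i) x))) ≤
          (1 + ε) * ∑ ρ, F.hh x ρ + C := by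
  classical
  obtain ⟨A0, hA0⟩ := hproj
  set H : ι ⊕ Fin N → Fin N → K := Sum.elim L (fun i => Pi.single i 1) with hH
  have hHc : ∀ l, F.IsCoxLinear (H l) := by
    rintro (l | i)
    · exact hL l
    · refine ⟨fun h => ?_, fun ρ τ h1 h2 => ?_⟩
      · have := congrFun h i
        simp [hH] at this
      · have h3 : ρ = i := by
          by_contra h4
          exact h1 (Pi.single_eq_of_ne h4 _)
        have h4 : τ = i := by
          by_contra h5
          exact h2 (Pi.single_eq_of_ne h5 _)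
        rw [h3, h4]
        exact LinEq.refl F _
  have hspan : ∃ β : Fin N → ι ⊕ Fin N, (Matrix.of fun a => H (β a)).det ≠ 0 := by
    refine ⟨fun i => Sum.inr i, ?_⟩
    have h1 : (Matrix.of fun a => H (Sum.inr a)) = (1 : Matrix (Fin N) (Fin N) K) := by
      ext i j
      simp only [hH, Matrix.of_apply, Sum.elim_inr]
      by_cases h : i = j
      · subst h; simp
      · rw [Pi.single_eq_of_ne (Ne.symm h), Matrix.one_apply_ne h]
    rw [h1, Matrix.det_one]
    exact one_ne_zero
  choose Zc hZc hmain using fun c : F.Q => block (k := k) F hi H hHc c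
  have hfd : FiniteDimensional k K := inferInstance
  -- forms over `k` which control the forms of the family
  have hdes : ∀ l, ∃ z : Fin N → k, F.IsCoxLinear z ∧ ∀ x : Fin N → k, ∑ j, z j * x j ≠ 0 →
      dot (H l) (exv K x) ≠ 0 := by
    intro l
    obtain ⟨τ, hτ⟩ := Function.ne_iff.1 (hHc l).1
    set c := F.cl τ with hc
    have hsup : ∀ ρ, H l ρ ≠ 0 → F.cl ρ = c := fun ρ hρ => cl_eq.2 ((hHc l).2 ρ τ hρ hτ)
    have hne : (fun i : Fin (F.sz c) => H l (F.en c i)) ≠ 0 := by
      intro h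
      have h1 := congrFun h ((F.en c).symm ⟨τ, rfl⟩)
      simp only [Equiv.apply_symm_apply, Pi.zero_apply] at h1
      exact hτ h1
    obtain ⟨z, hz0, hz⟩ := descend (k := k) (fun i : Fin (F.sz c) => H l (F.en c i)) hne
    refine ⟨F.extz c z, F.extz_cox c z hz0, fun x hx => ?_⟩
    rw [F.extz_dot] at hx
    have h1 := hz _ hx
    have h2 : dot (H l) (exv K x) = ∑ i, H l (F.en c i) * algebraMap k K (x (F.en c i)) := by
      have h3 : dot (H l) (exv K x) = ∑ c' : F.Q, ∑ i : Fin (F.sz c'),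
          H l (F.en c' i) * exv K x (F.en c' i) :=
        F.sum_blocks fun τ' => H l τ' * exv K x τ'
      rw [h3, Finset.sum_eq_single c]
      · rfl
      · intro c' _ hc'
        refine Finset.sum_eq_zero fun i _ => ?_
        by_cases h : H l (F.en c' i) = 0
        · rw [h, zero_mul]
        · exact absurd ((F.en c' i).2.symm.trans (hsup _ h)) hc'
      · intro h
        exact absurd (Finset.mem_univ _) h
    rw [h2]
    exact h1
  choose zl hzl0 hzl using hdes
  set Z : Finset (Fin N → k) := (Finset.univ.biUnion Zc ∪ univ.image zl) ∪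
    univ.image (fun ρ => Pi.single ρ 1) with hZ
  refine ⟨Z, ?_, fun ρ => ?_, ?_⟩
  · intro z hz
    rcases Finset.mem_union.1 hz with h | h
    · rcases Finset.mem_union.1 h with h | h
      · obtain ⟨c, _, hc⟩ := Finset.mem_biUnion.1 h
        exact hZc c z hc
      · obtain ⟨l, _, rfl⟩ := Finset.mem_image.1 h
        exact hzl0 l
    · obtain ⟨ρ, _, rfl⟩ := Finset.mem_image.1 h
      refine ⟨fun h => ?_, fun ρ' τ h1 h2 => ?_⟩
      · have := congrFun h ρ
        simp at this
      · have h3 : ρ' = ρ := by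
          by_contra h4
          exact h1 (Pi.single_eq_of_ne h4 _)
        have h4 : τ = ρ := by
          by_contra h5
          exact h2 (Pi.single_eq_of_ne h5 _)
        rw [h3, h4]
        exact LinEq.refl F _
  · exact Finset.mem_union_right _ (Finset.mem_image_of_mem _ (Finset.mem_univ _))
  intro a Fs e c s σ hfac hFe hne b us eu hus hm S ε hε
  choose f hf using fun v : Pl k => exists_good (k := k) (K := K) v
  choose C0 hC0 hC0' using fun q : F.Q => hmain q S f (fun v _ => hf v) ε hε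
  -- the local constants
  have hloc : ∀ (v : Pl k) (β : Fin N → ι ⊕ Fin N) (i : Fin b), ∃ C : ℝ, 0 ≤ C ∧
      ((Matrix.of fun a => H (β a)).det ≠ 0 → (∀ i, H (β i) i ≠ 0) → ∀ x : Fin N → K,
      (∀ ρ, x ρ ≠ 0) → (∀ l, dot (H l) x ≠ 0) →
      (∀ B' : Matrix (Fin N) (Fin N) K, B' * (Matrix.of fun a => H (β a)) = 1 →
        ∀ l i, Matrix.vecMul (H l) B' i ≠ 0 → f v (dot (H (β i)) x) ≤ f v (dot (H l) x)) →
      aeval x (us i) ≠ 0 →
      0 < ⨆ j, f v (aeval x (Fs j)) * Real.exp (F.td (f v) x (e j)) →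
      -Real.log (⨆ j, f v (aeval x (Fs j)) * Real.exp (F.td (f v) x (e j))) ≤
        -Real.log (f v (aeval x (us i)) * Real.exp (F.td (f v) x (eu i))) +
        ∑ i, (-Real.log (f v (dot (H (β i)) x)) - F.tt (f v) x i) + C) := by
    intro v β i
    by_cases hβ : (Matrix.of fun a => H (β a)).det ≠ 0 ∧ ∀ i, H (β i) i ≠ 0
    · set A : Matrix (Fin N) (Fin N) K := Matrix.of fun a => H (β a) with hA
      have hu : IsUnit A.det := IsUnit.mk0 _ hβ.1
      have hB : A * A⁻¹ = 1 := Matrix.mul_nonsing_inv _ hu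
      have hB2 : A⁻¹ * A = 1 := Matrix.nonsing_inv_mul _ hu
      have hblk : F.Blk A := fun i j hij => (hHc (β i)).2 j i hij (hβ.2 i)
      obtain ⟨C, hC, h⟩ := localIneq (k := k) hA0 (f v) A A⁻¹ hblk (hblk.inv hB hB2) hB hB2 H hHc
        Fs c s (fun j t => Sum.inl (σ j t)) hfac e hFe (us i) (eu i) (hus i) (hm i)
      exact ⟨C, hC, fun _ _ x hx hL' hgr hux hs => h x hx (fun i => hL' _)
        (fun l i hli => hgr A⁻¹ hB2 l i hli) hux hs⟩
    · exact ⟨0, le_rfl, fun h h' => absurd ⟨h, h'⟩ hβ⟩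
  choose C1 hC1' hC1 using hloc
  refine ⟨∑ q, C0 q + ∑ v ∈ S, wt v * ∑ β, ∑ i, C1 v β i, ?_⟩
  intro x hZx hux
  have hx : ∀ ρ, x ρ ≠ 0 := by
    intro ρ
    have h1 := hZx (Pi.single ρ 1)
      (Finset.mem_union_right _ (Finset.mem_image_of_mem _ (Finset.mem_univ _)))
    have h2 : ∑ j, (Pi.single ρ 1 : Fin N → k) j * x j = x ρ := by
      rw [Finset.sum_eq_single ρ]
      · simp
      · intro j _ hj
        rw [Pi.single_eq_of_ne hj, zero_mul]
      · intro h
        exact absurd (Finset.mem_univ _) h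
    rwa [h2] at h1
  set X : Fin N → K := exv K x with hX
  have hX0 : ∀ ρ, X ρ ≠ 0 := fun ρ => by
    show algebraMap k K (x ρ) ≠ 0
    rw [Ne, map_eq_zero]
    exact hx ρ
  have hXl : ∀ l, dot (H l) X ≠ 0 := fun l => hzl l x (hZx _ (Finset.mem_union_left _
    (Finset.mem_union_right _ (Finset.mem_image_of_mem _ (Finset.mem_univ l)))))
  choose β hβ hβ' hgr using fun v : Pl k => greedy' (f v) H hspan X hXl
  have hS := fun q : F.Q => hC0' q x hx (fun z hz => hZx z (Finset.mem_union_left _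
    (Finset.mem_union_left _ (Finset.mem_biUnion.2 ⟨q, Finset.mem_univ _, hz⟩)))) hXl β
    (fun v _ => ⟨hβ v, hβ' v⟩)
  have hval : ∀ (v : Pl k) (P : MvPolynomial (Fin N) k) (g : Fin N → ℤ),
      f v (aeval X P) * Real.exp (F.td (f v) X g) = F.secNorm (absAt v) g P x := by
    intro v P g
    rw [secNorm_eq, val_ext (hf v), td_ext (hf v)]
  have hFx : ∃ j, eval x (Fs j) ≠ 0 := by
    obtain ⟨j, hj⟩ := hne
    refine ⟨j, fun h0 => ?_⟩
    have h2 : (algebraMap k K) (eval x (Fs j)) = c j * ∏ t, dot (L (σ j t)) X := by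
      have h3 : (algebraMap k K) (eval x (Fs j)) = eval X (map (algebraMap k K) (Fs j)) := by
        rw [← aeval_exv, eval_map, aeval_def]
      rw [h3, hfac, map_mul, eval_C, map_prod]
      congr 1
      exact Finset.prod_congr rfl fun t _ => eval_lff _ _
    have h4 : c j ≠ 0 := by
      intro h5
      apply hj
      apply map_injective _ (algebraMap k K).injective
      rw [hfac, h5, C_0, zero_mul, map_zero]
    rw [h0, map_zero] at h2
    exact mul_ne_zero h4 (Finset.prod_ne_zero_iff.2 fun t _ => hXl (Sum.inl _)) h2.symm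
  have hb : 0 < b := by
    obtain ⟨i, _⟩ := hux
    exact Fin.pos i
  have : Nonempty (Fin b) := ⟨⟨0, hb⟩⟩
  have hsn : ∀ (v : Place k) (g : Fin N → ℤ) (P : MvPolynomial (Fin N) k), eval x P ≠ 0 →
      0 < F.secNorm (absAt v) g P x := by
    intro v g P hP
    rw [secNorm_eq]
    exact mul_pos ((absAt v).pos_iff.2 hP) (Real.exp_pos _)
  have hlocx : ∀ v ∈ S, mult v * (-Real.log (⨆ j, F.secNorm (absAt v) (e j) (Fs j) x)
          -(-Real.log (⨆ i, F.secNorm (absAt v) (eu i) (us i) x))) ≤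
      mult v * ∑ i, (-Real.log (f v (dot (H (β v i)) X)) - F.tt (absAt v) x i) +
        wt v * ∑ β, ∑ i, C1 v β i := by
    intro v hv
    rw [← mult_eq', ← mul_add]
    refine mul_le_mul_of_nonneg_left ?_ (mult_nonneg v)
    obtain ⟨i, hi'⟩ := exists_eq_ciSup_of_finite
      (f := fun i : Fin b => F.secNorm (absAt v) (eu i) (us i) x)
    have hbdd : BddAbove (Set.range fun i : Fin b => F.secNorm (absAt v) (eu i) (us i) x) :=
      (Set.finite_range _).bddAbove
    have hpos : 0 < F.secNorm (absAt v) (eu i) (us i) x := by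
      obtain ⟨i1, hi1⟩ := hux
      have h3 := le_ciSup hbdd i1
      rw [← hi'] at h3
      exact (hsn v _ _ hi1).trans_le h3
    have hui : eval x (us i) ≠ 0 := by
      intro h0
      rw [secNorm_eq, h0, map_zero, zero_mul] at hpos
      exact lt_irrefl _ hpos
    have huiX : aeval X (us i) ≠ 0 := by
      rw [hX, aeval_exv, Ne, map_eq_zero]
      exact hui
    have hbddF : BddAbove (Set.range fun j : Fin a => F.secNorm (absAt v) (e j) (Fs j) x) :=
      (Set.finite_range _).bddAbove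
    have hFpos : 0 < ⨆ j, F.secNorm (absAt v) (e j) (Fs j) x := by
      obtain ⟨j, hj⟩ := hFx
      exact (hsn v _ _ hj).trans_le (le_ciSup hbddF j)
    have h2 := hC1 v (β v) i (hβ v) (hβ' v) X hX0 hXl (hgr v) huiX
      (by simpa only [hval] using hFpos)
    simp only [hval] at h2
    rw [← hi']
    have h3 : C1 v (β v) i ≤ ∑ β, ∑ i, C1 v β i := by
      have h4 : C1 v (β v) i ≤ ∑ i, C1 v (β v) i :=
        Finset.single_le_sum (f := fun i => C1 v (β v) i) (fun i _ => hC1' v (β v) i)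
          (Finset.mem_univ i)
      exact h4.trans (Finset.single_le_sum (f := fun β => ∑ i, C1 v β i)
        (fun β _ => Finset.sum_nonneg fun i _ => hC1' v β i) (Finset.mem_univ (β v)))
    have h4 : ∀ i, F.tt (f v) X i = F.tt (absAt v) x i := fun i => tt_ext (hf v) x i
    simp only [h4] at h2
    linarith
  refine (Finset.sum_le_sum hlocx).trans ?_
  rw [Finset.sum_add_distrib]
  -- the sum over the blocks
  have hblocks : ∑ v ∈ S, mult v * ∑ i, (-Real.log (f v (dot (H (β v i)) X)) -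
      F.tt (absAt v) x i) = ∑ q : F.Q, ∑ v ∈ S, mult v * ∑ i : Fin (F.sz q),
        (-Real.log (f v (dot (H (β v (F.en q i))) X)) - F.tt (absAt v) x (F.en q i)) := by
    rw [Finset.sum_comm]
    refine Finset.sum_congr rfl fun v _ => ?_
    rw [F.sum_blocks, Finset.mul_sum]
  rw [hblocks]
  have hq : ∀ q : F.Q, ∑ v ∈ S, mult v * ∑ i : Fin (F.sz q),
        (-Real.log (f v (dot (H (β v (F.en q i))) X)) - F.tt (absAt v) x (F.en q i)) ≤
      (1 + ε) * ∑ i : Fin (F.sz q), F.hh x (F.en q i) + C0 q := by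
    intro q
    refine (hS q).trans ?_
    have h1 : ∀ i, F.hh x (F.en q i) = F.hh x (F.en q (F.i0 q)) := fun i =>
      hh_eq hx (cl_eq.1 ((F.en q i).2.trans (F.en q (F.i0 q)).2.symm))
    simp only [h1, Finset.sum_const, Finset.card_univ, Fintype.card_fin, nsmul_eq_mul]
    have h2 := F.hh_nonneg x (F.en q (F.i0 q))
    have h3 : (1 : ℝ) ≤ F.sz q := by exact_mod_cast F.sz_pos q
    have h4 : ε * F.hh x (F.en q (F.i0 q)) ≤ ε * (F.sz q * F.hh x (F.en q (F.i0 q))) := by
      refine mul_le_mul_of_nonneg_left ?_ hε.le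
      calc F.hh x (F.en q (F.i0 q)) = 1 * F.hh x (F.en q (F.i0 q)) := (one_mul _).symm
        _ ≤ _ := mul_le_mul_of_nonneg_right h3 h2
    linarith
  have hsum := Finset.sum_le_sum fun q (_ : q ∈ (Finset.univ : Finset F.Q)) => hq q
  rw [Finset.sum_add_distrib, ← Finset.mul_sum] at hsum
  have hh1 := F.sum_blocks fun ρ => F.hh x ρ
  rw [← hh1] at hsum
  linarith

/-- the main inequality -/
theorem main (F : Fan d N) (hproj : ∃ A, F.IsAmple A) (K : Type) [Field K] [NumberField K]
    [Algebra k K] {ι : Type} [Fintype ι] [DecidableEq ι]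
    (L : ι → Fin N → K) (hL : ∀ l, F.IsCoxLinear (L l)) :
    ∃ Z : Finset (Fin N → k), (∀ z ∈ Z, F.IsCoxLinear z) ∧ (∀ ρ, Pi.single ρ 1 ∈ Z) ∧
      ∀ (a : ℕ) (Fs : Fin a → MvPolynomial (Fin N) k) (e : Fin a → Fin N → ℤ)
        (c : Fin a → K) (s : Fin a → ℕ) (σ : ∀ j, Fin (s j) → ι),
      (∀ j, map (algebraMap k K) (Fs j) = C (c j) * ∏ t, lff (L (σ j t))) →
      (∀ j, F.IsForm (e j) (Fs j)) → (∃ j, Fs j ≠ 0) →
      ∀ (b : ℕ) (us : Fin b → MvPolynomial (Fin N) k) (eu : Fin b → Fin N → ℤ),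
      (∀ i, F.IsForm (eu i) (us i)) → (∀ i, F.InMultiplierIdeal Fs (us i)) →
      ∀ (S : Finset (Place k)) (ε : ℝ), 0 < ε → ∃ C : ℝ, ∀ x : Fin N → k,
        (∀ z ∈ Z, ∑ j, z j * x j ≠ 0) → (∃ i, eval x (us i) ≠ 0) →
        ∑ v ∈ S, mult v * (-Real.log (⨆ j, F.secNorm (absAt v) (e j) (Fs j) x)
          -(-Real.log (⨆ i, F.secNorm (absAt v) (eu i) (us i) x))) ≤
          (1 + ε) * ∑ ρ, F.hh x ρ + C := by
  classical
  obtain ⟨M, hM1, hM2, hi, ⟨φ⟩⟩ := exists_big K
  have : NumberField M := ⟨⟩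
  let _ : Algebra K M := φ.toAlgebra
  let _ : Algebra k M := (φ.comp (algebraMap k K)).toAlgebra
  have : IsScalarTower k K M := IsScalarTower.of_algebraMap_eq fun _ => rfl
  obtain ⟨Z, hZ, hZ1, hmain⟩ := big (k := k) F hproj (K := M) hi
    (fun l j => algebraMap K M (L l j)) (by
    intro l
    refine ⟨fun h => (hL l).1 ?_, fun ρ τ h1 h2 => (hL l).2 ρ τ ?_ ?_⟩
    · funext j
      have h2 : algebraMap K M (L l j) = 0 := congrFun h j
      exact (map_eq_zero _).1 h2
    · intro h
      exact h1 (by show algebraMap K M (L l ρ) = 0; rw [h, map_zero])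
    · intro h
      exact h2 (by show algebraMap K M (L l τ) = 0; rw [h, map_zero]))
  refine ⟨Z, hZ, hZ1, fun a Fs e c s σ hfac =>
    hmain a Fs e (fun j => algebraMap K M (c j)) s σ fun j => ?_⟩
  have h1 := congrArg (map (algebraMap K M)) (hfac j)
  rw [MvPolynomial.map_map, map_mul, map_prod, map_C] at h1
  have h2 : (algebraMap K M).comp (algebraMap k K) = algebraMap k M := rfl
  rw [h2] at h1
  rw [h1]
  congr 1
  exact Finset.prod_congr rfl fun t _ => map_lff _

end Pool.Agent.H9.TV.Fan
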