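import Pool.Agent.H9.TV.Fan

/-!
The normalisation of the Cox coordinates of a point.
-/

set_option autoImplicit false

namespace Pool.Agent.H9.TV.Fan

open Finset MvPolynomial

variable {d N : ℕ} (F : Fan d N) {K : Type} [Field K]

/-- the normalisation of the coordinates -/
noncomputable def tt (f : AbsoluteValue K ℝ) (x : Fin N → K) (ρ : Fin N) : ℝ :=
  -Real.log (f (x ρ)) - F.lam f x ρ

theorem lam_nonneg (f : AbsoluteValue K ℝ) (x : Fin N → K) (ρ : Fin N) : 0 ≤ F.lam f x ρ :=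
  F.crd_nonneg _ ρ

theorem lam_cone (f : AbsoluteValue K ℝ) (x : Fin N → K) :
    ∃ σ ∈ F.cones, ∀ ρ, ρ ∉ σ → F.lam f x ρ = 0 := by
  obtain ⟨σ, hσ, _, h, _⟩ := F.crd_spec fun i => ∑ τ, -Real.log (f (x τ)) * (F.u τ i : ℝ)
  exact ⟨σ, hσ, h⟩

theorem tt_sum (f : AbsoluteValue K ℝ) (x : Fin N → K) (i : Fin d) :
    ∑ ρ, F.tt f x ρ * (F.u ρ i : ℝ) = 0 := by
  have h := F.crd_sum (fun i => ∑ τ, -Real.log (f (x τ)) * (F.u τ i : ℝ)) i
  unfold tt
  simp only [sub_mul, Finset.sum_sub_distrib]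
  unfold lam
  rw [h, sub_self]

/-- the normalisation of a divisor -/
noncomputable def td (f : AbsoluteValue K ℝ) (x : Fin N → K) (e : Fin N → ℤ) : ℝ :=
  ∑ ρ, (e ρ : ℝ) * F.tt f x ρ

variable {F}

theorem td_lin (f : AbsoluteValue K ℝ) (x : Fin N → K) {e e' : Fin N → ℤ} (h : F.LinEq e e') :
    F.td f x e = F.td f x e' := by
  obtain ⟨m, hm⟩ := h
  unfold td
  simp only [hm, Int.cast_add, add_mul, Finset.sum_add_distrib]
  rw [add_eq_left]
  unfold pair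
  push_cast
  simp only [Finset.sum_mul]
  rw [Finset.sum_comm]
  refine Finset.sum_eq_zero fun i _ => ?_
  have h1 := F.tt_sum f x i
  calc ∑ ρ, (m i : ℝ) * (F.u ρ i : ℝ) * F.tt f x ρ = m i * ∑ ρ, F.tt f x ρ * (F.u ρ i : ℝ) := by
        rw [Finset.mul_sum]
        exact Finset.sum_congr rfl fun ρ _ => by ring
    _ = 0 := by rw [h1, mul_zero]

variable (F)

theorem td_add (f : AbsoluteValue K ℝ) (x : Fin N → K) (e e' : Fin N → ℤ) :
    F.td f x (e + e') = F.td f x e + F.td f x e' := by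
  unfold td
  rw [← Finset.sum_add_distrib]
  exact Finset.sum_congr rfl fun ρ _ => by rw [Pi.add_apply]; push_cast; ring

theorem td_smul (f : AbsoluteValue K ℝ) (x : Fin N → K) (n : ℤ) (e : Fin N → ℤ) :
    F.td f x (n • e) = n * F.td f x e := by
  unfold td
  rw [Finset.mul_sum]
  exact Finset.sum_congr rfl fun ρ _ => by rw [Pi.smul_apply, smul_eq_mul]; push_cast; ring

theorem td_sum {ι : Type} (s : Finset ι) (f : AbsoluteValue K ℝ) (x : Fin N → K)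
    (e : ι → Fin N → ℤ) : F.td f x (∑ i ∈ s, e i) = ∑ i ∈ s, F.td f x (e i) := by
  classical
  induction s using Finset.induction_on with
  | empty => simp [td]
  | insert a s ha ih => rw [Finset.sum_insert ha, Finset.sum_insert ha, td_add, ih]

theorem td_single (f : AbsoluteValue K ℝ) (x : Fin N → K) (ρ : Fin N) :
    F.td f x (Pi.single ρ 1) = F.tt f x ρ := by
  classical
  unfold td
  rw [Finset.sum_eq_single ρ]
  · rw [Pi.single_eq_same, Int.cast_one, one_mul]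
  · intro τ _ hτ
    rw [Pi.single_eq_of_ne hτ, Int.cast_zero, zero_mul]
  · intro h
    exact absurd (Finset.mem_univ _) h

theorem secNorm_eq (f : AbsoluteValue K ℝ) (e : Fin N → ℤ) (P : MvPolynomial (Fin N) K)
    (x : Fin N → K) : F.secNorm f e P x = f (eval x P) * Real.exp (F.td f x e) := by
  unfold secNorm td tt
  congr 2
  rw [← Finset.sum_neg_distrib]
  exact Finset.sum_congr rfl fun ρ _ => by ring

variable {F}

theorem tt_eq {f : AbsoluteValue K ℝ} {x : Fin N → K} {ρ τ : Fin N}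
    (h : F.LinEq (Pi.single ρ 1) (Pi.single τ 1)) : F.tt f x ρ = F.tt f x τ := by
  rw [← td_single, ← td_single]
  exact td_lin f x h

theorem sum_log (f : AbsoluteValue K ℝ) (x : Fin N → K) (E : Fin N → ℤ) :
    ∑ ρ, (E ρ : ℝ) * -Real.log (f (x ρ)) = F.td f x E + ∑ ρ, (E ρ : ℝ) * F.lam f x ρ := by
  unfold td tt
  rw [← Finset.sum_add_distrib]
  exact Finset.sum_congr rfl fun ρ _ => by ring

theorem IsNef.compare {e : Fin N → ℤ} (he : F.IsNef e) : ∃ D : ℕ, ∀ (K : Type) [Field K]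
    (f : AbsoluteValue K ℝ) (κ : ℝ), 1 ≤ κ → ∀ x y : Fin N → K, (∀ ρ, x ρ ≠ 0) →
      (∀ ρ, y ρ ≠ 0) → (∀ ρ, ∃ τ, F.LinEq (Pi.single τ 1) (Pi.single ρ 1) ∧
        f (y ρ) ≤ κ * f (x τ)) → F.td f x e - D * Real.log κ ≤ F.td f y e := by
  classical
  choose! m hm using he
  refine ⟨∑ σ ∈ F.cones, ∑ ρ, (e ρ + F.pair (m σ) ρ).natAbs, fun K _ f κ hκ x y hx hy h => ?_⟩
  obtain ⟨σ, hσ, hσ0⟩ := F.lam_cone f y
  set E : Fin N → ℤ := fun ρ => e ρ + F.pair (m σ) ρ with hE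
  have hE0 : ∀ ρ, 0 ≤ E ρ := fun ρ => by
    have := (hm σ hσ).2 ρ
    simp only [hE]
    linarith
  have hEσ : ∀ ρ ∈ σ, E ρ = 0 := fun ρ hρ => by
    have := (hm σ hσ).1 ρ hρ
    simp only [hE]
    linarith
  have hlin : F.LinEq E e := ⟨m σ, fun ρ => rfl⟩
  have h1 : F.td f y e = ∑ ρ, (E ρ : ℝ) * -Real.log (f (y ρ)) := by
    rw [← td_lin f y hlin, sum_log, left_eq_add]
    refine Finset.sum_eq_zero fun ρ _ => ?_
    by_cases hρ : ρ ∈ σ
    · rw [hEσ ρ hρ, Int.cast_zero, zero_mul]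
    · rw [hσ0 ρ hρ, mul_zero]
  choose τ hτ hτ' using h
  have h2 : ∀ ρ, (E ρ : ℝ) * -Real.log (f (y ρ)) ≥
      E ρ * F.tt f x ρ - E ρ * Real.log κ := by
    intro ρ
    have hfy := f.pos_iff.2 (hy ρ)
    have hfx := f.pos_iff.2 (hx (τ ρ))
    have h3 := Real.log_le_log hfy (hτ' ρ)
    rw [Real.log_mul (by linarith) hfx.ne'] at h3
    have h4 := F.lam_nonneg f x (τ ρ)
    have h5 : F.tt f x (τ ρ) = F.tt f x ρ := tt_eq (hτ ρ)
    have h6 : F.tt f x (τ ρ) = -Real.log (f (x (τ ρ))) - F.lam f x (τ ρ) := rfl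
    have h7 : F.tt f x ρ - Real.log κ ≤ -Real.log (f (y ρ)) := by linarith
    have h8 : (0 : ℝ) ≤ E ρ := by exact_mod_cast hE0 ρ
    calc (E ρ : ℝ) * F.tt f x ρ - E ρ * Real.log κ = E ρ * (F.tt f x ρ - Real.log κ) := by ring
      _ ≤ _ := mul_le_mul_of_nonneg_left h7 h8
  have h3 : F.td f x e - (∑ ρ, (E ρ : ℝ)) * Real.log κ ≤ F.td f y e := by
    rw [h1, ← td_lin f x hlin]
    unfold td
    rw [Finset.sum_mul, ← Finset.sum_sub_distrib]
    exact Finset.sum_le_sum fun ρ _ => h2 ρ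
  have h4 : (∑ ρ, (E ρ : ℝ)) ≤
      ((∑ σ ∈ F.cones, ∑ ρ, (e ρ + F.pair (m σ) ρ).natAbs : ℕ) : ℝ) := by
    have h5 : ∑ ρ, E ρ = ((∑ ρ, (E ρ).natAbs : ℕ) : ℤ) := by
      push_cast
      exact Finset.sum_congr rfl fun ρ _ => (abs_of_nonneg (hE0 ρ)).symm
    have h6 : ∑ ρ, (E ρ).natAbs ≤ ∑ σ ∈ F.cones, ∑ ρ, (e ρ + F.pair (m σ) ρ).natAbs :=
      Finset.single_le_sum (f := fun σ => ∑ ρ, (e ρ + F.pair (m σ) ρ).natAbs)
        (fun _ _ => Nat.zero_le _) hσ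
    have h7 : ((∑ ρ, E ρ : ℤ) : ℝ) ≤ ((∑ σ ∈ F.cones, ∑ ρ, (e ρ + F.pair (m σ) ρ).natAbs : ℕ) : ℝ) := by
      rw [h5, Int.cast_natCast]
      exact Nat.cast_le.2 h6
    rw [Int.cast_sum] at h7
    exact h7
  have h5 := mul_le_mul_of_nonneg_right h4 (Real.log_nonneg hκ)
  linarith

/-- an automorphism which is linear in the Cox coordinates changes the normalisation by a bounded
amount -/
theorem IsAmple.compare {a : Fin N → ℤ} (ha : F.IsAmple a) : ∃ D : ℕ, ∀ (K : Type) [Field K]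
    (f : AbsoluteValue K ℝ) (κ : ℝ), 1 ≤ κ → ∀ x y : Fin N → K, (∀ ρ, x ρ ≠ 0) →
      (∀ ρ, y ρ ≠ 0) → (∀ ρ, ∃ τ, F.LinEq (Pi.single τ 1) (Pi.single ρ 1) ∧
        f (y ρ) ≤ κ * f (x τ)) → (∀ ρ, ∃ τ, F.LinEq (Pi.single τ 1) (Pi.single ρ 1) ∧
        f (x ρ) ≤ κ * f (y τ)) → ∀ ρ, |F.tt f x ρ - F.tt f y ρ| ≤ D * Real.log κ := by
  classical
  choose n0 hn0 using fun b : Option (Fin N) => ha.nef_add (b.elim 0 fun ρ => Pi.single ρ 1)
  set n : ℕ := ∑ b, n0 b with hn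
  have hle : ∀ b, n0 b ≤ n := fun b =>
    Finset.single_le_sum (f := n0) (fun _ _ => Nat.zero_le _) (Finset.mem_univ b)
  choose D hD using fun b : Option (Fin N) => (hn0 b n (hle b)).compare
  refine ⟨∑ b, D b + ∑ b, D b, fun K _ f κ hκ x y hx hy h1 h2 ρ => ?_⟩
  have hlog := Real.log_nonneg hκ
  have hDle : ∀ b, (D b : ℝ) * Real.log κ ≤ (∑ b, (D b : ℝ)) * Real.log κ := fun b =>
    mul_le_mul_of_nonneg_right (Finset.single_le_sum (f := fun b => (D b : ℝ))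
      (fun _ _ => Nat.cast_nonneg _) (Finset.mem_univ b)) hlog
  have a1 := hD none K f κ hκ x y hx hy h1
  have a2 := hD none K f κ hκ y x hy hx h2
  have b1 := hD (some ρ) K f κ hκ x y hx hy h1
  have b2 := hD (some ρ) K f κ hκ y x hy hx h2
  simp only [Option.elim_none, Option.elim_some, add_zero, td_add, td_single] at a1 a2 b1 b2
  have c1 := hDle none
  have c2 := hDle (some ρ)
  push_cast
  rw [abs_le]
  constructor <;> linarith

end Pool.Agent.H9.TV.Fan
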